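import Pool.Agent.Q137.NC.Lat

/-! # The sets: lattice points of a cube in a lattice without short vectors -/

set_option autoImplicit false

open Finset
open scoped Pointwise

noncomputable section

namespace Pool.Agent.Q137.NC

/-- The lattice of the solutions of the parity checks. -/
def latL (p m n : ℕ) (H : Fin m → Fin n → ZMod p) : AddSubgroup (Fin n → ℤ) where
  carrier := {x | ∀ i, ∑ j, H i j * ((x j : ℤ) : ZMod p) = 0}
  zero_mem' := by
    intro i
    simp
  add_mem' := by
    intro x y hx hy i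
    have h1 := hx i
    have h2 := hy i
    simp only [Pi.add_apply, Int.cast_add, mul_add, Finset.sum_add_distrib] at *
    rw [h1, h2, add_zero]
  neg_mem' := by
    intro x hx i
    have h1 := hx i
    simp only [Pi.neg_apply, Int.cast_neg, mul_neg, Finset.sum_neg_distrib] at *
    rw [h1, neg_zero]

lemma mem_latL (p m n : ℕ) (H : Fin m → Fin n → ZMod p) (x : Fin n → ℤ) :
    x ∈ latL p m n H ↔ ∀ i, ∑ j, H i j * ((x j : ℤ) : ZMod p) = 0 := Iff.rfl

open Classical in
/-- The points of the subgroup `L` in the cube of side `2 R`. -/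
def cubeA {n : ℕ} (L : AddSubgroup (Fin n → ℤ)) (R : ℕ) : Finset L :=
  (Fintype.piFinset fun _ : Fin n => Finset.Icc (-(R : ℤ)) R).subtype (fun x => x ∈ L)

lemma mem_cubeA {n : ℕ} (L : AddSubgroup (Fin n → ℤ)) (R : ℕ) (x : L) :
    x ∈ cubeA L R ↔ ∀ i, -(R : ℤ) ≤ (x : Fin n → ℤ) i ∧ (x : Fin n → ℤ) i ≤ R := by
  classical
  rw [cubeA, Finset.mem_subtype, Fintype.mem_piFinset]
  simp only [Finset.mem_Icc]

open Classical in
/-- doubling of the points of a cube -/
lemma cubeA_doubling {n : ℕ} (L : AddSubgroup (Fin n → ℤ)) (R : ℕ) :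
    (cubeA L R + cubeA L R).card ≤ 4 ^ n * (cubeA L R).card := by
  set f : L → (Fin n → ℤ) := fun x i => ((x : Fin n → ℤ) i + 2 * R) / (R + 1) with hf
  have himg : (cubeA L R + cubeA L R).image f ⊆
      Fintype.piFinset fun _ : Fin n => Finset.Ico (0 : ℤ) 4 := by
    intro y hy
    rw [Finset.mem_image] at hy
    obtain ⟨x, hx, rfl⟩ := hy
    obtain ⟨a, ha, b, hb, rfl⟩ := Finset.mem_add.1 hx
    rw [mem_cubeA] at ha hb
    rw [Fintype.mem_piFinset]
    intro i
    have h1 := ha i
    have h2 := hb i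
    rw [Finset.mem_Ico, hf]
    simp only [AddSubgroup.coe_add, Pi.add_apply]
    constructor
    · exact Int.ediv_nonneg (by linarith) (by positivity)
    · rw [Int.ediv_lt_iff_lt_mul (by positivity)]
      have : (0 : ℤ) ≤ R := by positivity
      linarith
  have h4 : (Fintype.piFinset fun _ : Fin n => Finset.Ico (0 : ℤ) 4).card = 4 ^ n := by
    simp
  have h5 : ((cubeA L R + cubeA L R).image f).card ≤ 4 ^ n := by
    rw [← h4]
    exact Finset.card_le_card himg
  have h6 := Finset.card_le_mul_card_image (f := f) (cubeA L R + cubeA L R) (cubeA L R).card (by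
    intro y hy
    rw [Finset.mem_image] at hy
    obtain ⟨z, hz, rfl⟩ := hy
    refine Finset.card_le_card_of_injOn (fun x => x - z) ?_ ?_
    · intro x hx
      rw [Finset.mem_coe, Finset.mem_filter] at hx
      rw [Finset.mem_coe, mem_cubeA]
      intro i
      have h1 : ((x : Fin n → ℤ) i + 2 * R) / ((R : ℤ) + 1) =
          ((z : Fin n → ℤ) i + 2 * R) / ((R : ℤ) + 1) := congrFun hx.2 i
      have hpos : (0 : ℤ) < (R : ℤ) + 1 := by positivity
      have e1 := Int.emod_add_mul_ediv ((x : Fin n → ℤ) i + 2 * R) ((R : ℤ) + 1)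
      have e2 := Int.emod_add_mul_ediv ((z : Fin n → ℤ) i + 2 * R) ((R : ℤ) + 1)
      have e3 := Int.emod_nonneg ((x : Fin n → ℤ) i + 2 * R) hpos.ne'
      have e4 := Int.emod_lt_of_pos ((x : Fin n → ℤ) i + 2 * R) hpos
      have e5 := Int.emod_nonneg ((z : Fin n → ℤ) i + 2 * R) hpos.ne'
      have e6 := Int.emod_lt_of_pos ((z : Fin n → ℤ) i + 2 * R) hpos
      rw [h1] at e1
      rw [AddSubgroup.coe_sub, Pi.sub_apply]
      constructor <;> linarith
    · intro x _ y _ h
      exact sub_left_injective h)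
  calc (cubeA L R + cubeA L R).card
      ≤ (cubeA L R).card * ((cubeA L R + cubeA L R).image f).card := h6
    _ ≤ (cubeA L R).card * 4 ^ n := Nat.mul_le_mul_left _ h5
    _ = _ := mul_comm _ _

/-- lower bound for the number of points -/
lemma cubeA_card (p m n : ℕ) [Fact p.Prime] (H : Fin m → Fin n → ZMod p) (R N : ℕ)
    (h : p ^ m * N ≤ (R + 1) ^ n) : N ≤ (cubeA (latL p m n H) R).card := by
  classical
  obtain ⟨y, -, hy⟩ := Finset.exists_le_card_fiber_of_mul_le_card_of_maps_to
    (s := Fintype.piFinset fun _ : Fin n => Finset.Icc (0 : ℤ) R)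
    (t := (Finset.univ : Finset (Fin m → ZMod p)))
    (f := fun x i => ∑ j, H i j * ((x j : ℤ) : ZMod p)) (n := N)
    (fun _ _ => Finset.mem_univ _) Finset.univ_nonempty (by
      rw [Finset.card_univ]
      simp only [Fintype.card_piFinset, Int.card_Icc, Finset.prod_const, Finset.card_univ,
        Fintype.card_fin, Fintype.card_pi, ZMod.card]
      have : ((R : ℤ) + 1 - 0).toNat = R + 1 := by omega
      rw [this]
      exact h)
  rcases Finset.eq_empty_or_nonempty
    {x ∈ (Fintype.piFinset fun _ : Fin n => Finset.Icc (0 : ℤ) R) |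
      (fun i => ∑ j, H i j * ((x j : ℤ) : ZMod p)) = y} with he | ⟨z, hz⟩
  · rw [he, Finset.card_empty] at hy
    omega
  · refine hy.trans ?_
    rw [Finset.mem_filter, Fintype.mem_piFinset] at hz
    have hsub : ∀ x ∈ {x ∈ (Fintype.piFinset fun _ : Fin n => Finset.Icc (0 : ℤ) R) |
      (fun i => ∑ j, H i j * ((x j : ℤ) : ZMod p)) = y}, x - z ∈ latL p m n H := by
      intro x hx
      rw [Finset.mem_filter] at hx
      rw [mem_latL]
      intro i
      have h1 : ∑ j, H i j * ((x j : ℤ) : ZMod p) = ∑ j, H i j * ((z j : ℤ) : ZMod p) :=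
        congrFun (hx.2.trans hz.2.symm) i
      simp only [Pi.sub_apply, Int.cast_sub, mul_sub, Finset.sum_sub_distrib]
      rw [h1, sub_self]
    refine Finset.card_le_card_of_injOn
      (fun x => if hx : x - z ∈ latL p m n H then (⟨x - z, hx⟩ : latL p m n H) else 0) ?_ ?_
    · intro x hx
      have hL := hsub x hx
      simp only [dif_pos hL]
      rw [Finset.mem_coe, mem_cubeA]
      rw [Finset.mem_coe, Finset.mem_filter, Fintype.mem_piFinset] at hx
      intro i
      have h1 := hx.1 i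
      have h2 := hz.1 i
      rw [Finset.mem_Icc] at h1 h2
      show -(R : ℤ) ≤ x i - z i ∧ x i - z i ≤ R
      constructor <;> linarith
    · intro x hx x' hx' hxx
      have hL := hsub x hx
      have hL' := hsub x' hx'
      simp only [dif_pos hL, dif_pos hL'] at hxx
      have := congrArg Subtype.val hxx
      simpa using this

/-- **The sets.** -/
theorem exists_sets (m r : ℕ) (hm : 5 ≤ m) :
    ∃ L : AddSubgroup (Fin (2 * m) → ℤ), r ^ (2 * m) ≤ (cubeA L (9 * (2 * m) * r)).card ∧
      ∀ x ∈ L, x ≠ 0 → (2 * m) * (2 * m) < ∑ i, (x i).natAbs := by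
  set n := 2 * m with hn
  obtain ⟨p, hp, hp1, hp2⟩ := Nat.exists_prime_lt_and_le_two_mul ((6 * n + 3) ^ 2) (by positivity)
  have : Fact p.Prime := ⟨hp⟩
  obtain ⟨H, hH⟩ := exists_check p m n n (by omega) (by nlinarith) (by
    calc (6 * n + 3) ^ n = ((6 * n + 3) ^ 2) ^ m := by rw [← pow_mul]
      _ ≤ p ^ m := Nat.pow_le_pow_left hp1.le m)
  refine ⟨latL p m n H, ?_, ?_⟩
  · refine cubeA_card p m n H _ _ ?_
    have h1 : 2 * (6 * n + 3) ^ 2 ≤ (9 * n) ^ 2 := by
      have : 10 ≤ n := by omega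
      nlinarith
    calc p ^ m * r ^ n ≤ (2 * (6 * n + 3) ^ 2) ^ m * r ^ n :=
          Nat.mul_le_mul_right _ (Nat.pow_le_pow_left hp2 m)
      _ ≤ ((9 * n) ^ 2) ^ m * r ^ n := Nat.mul_le_mul_right _ (Nat.pow_le_pow_left h1 m)
      _ = (9 * n * r) ^ n := by
          rw [← pow_mul, ← hn, mul_pow (9 * n) r n]
      _ ≤ _ := Nat.pow_le_pow_left (Nat.le_succ _) n
  · intro x hx hx0
    exact hH x hx0 hx

end Pool.Agent.Q137.NC
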