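import Pool.Agent.Q137.NC.LO
import Pool.Agent.Q137.NC.SetA

/-! # Progressions with a proportion of their parameters in `x + l A - l A` are small -/

set_option autoImplicit false

open Finset
open scoped Pointwise

noncomputable section

namespace Pool.Agent.Q137.NC

/-- `z` is in `l A - l A`. -/
def InDiff {G : Type*} [AddCommGroup G] (A : Finset G) (l : ℕ) (z : G) : Prop :=
  ∃ f g : Fin l → G, (∀ i, f i ∈ A) ∧ (∀ i, g i ∈ A) ∧ z = ∑ i, f i - ∑ i, g i

lemma norm_lower (n : ℕ) (hn : 0 < n) (w : Fin n → ℤ) (h : n * n < ∑ i, (w i).natAbs) :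
    (n : ℝ) ^ 3 ≤ ∑ b, (w b : ℝ) ^ 2 := by
  have h1 : ((n : ℝ) * n) ≤ ∑ b, |(w b : ℝ)| := by
    have h2 : ((n * n : ℕ) : ℝ) ≤ ((∑ i, (w i).natAbs : ℕ) : ℝ) := by exact_mod_cast h.le
    push_cast at h2
    refine h2.trans (le_of_eq ?_)
    refine Finset.sum_congr rfl fun b _ => ?_
    rw [Nat.cast_natAbs]
    push_cast
    rfl
  have h3 : (∑ b, |(w b : ℝ)|) ^ 2 ≤ (n : ℝ) * ∑ b, |(w b : ℝ)| ^ 2 := by
    have := sq_sum_le_card_mul_sum_sq (s := (Finset.univ : Finset (Fin n)))
      (f := fun b => |(w b : ℝ)|)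
    simpa using this
  simp only [sq_abs] at h3
  have hn' : (0 : ℝ) < n := by exact_mod_cast hn
  have h4 : ((n : ℝ) * n) ^ 2 ≤ n * ∑ b, (w b : ℝ) ^ 2 :=
    (pow_le_pow_left₀ (by positivity) h1 2).trans h3
  have h5 : (n : ℝ) * (n : ℝ) ^ 3 ≤ n * ∑ b, (w b : ℝ) ^ 2 := by
    calc (n : ℝ) * (n : ℝ) ^ 3 = ((n : ℝ) * n) ^ 2 := by ring
      _ ≤ _ := h4
  exact le_of_mul_le_mul_left h5 hn'

/-- elements of `l A - l A` are bounded -/
lemma inDiff_bound {n : ℕ} (L : AddSubgroup (Fin n → ℤ)) (R l : ℕ) (z : L)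
    (h : InDiff (cubeA L R) l z) (b : Fin n) : |(z : Fin n → ℤ) b| ≤ 2 * l * R := by
  obtain ⟨f, g, hf, hg, rfl⟩ := h
  have key : ∀ f : Fin l → L, (∀ i, f i ∈ cubeA L R) →
      |((∑ i, f i : L) : Fin n → ℤ) b| ≤ l * R := by
    intro f hf
    have e : ((∑ i, f i : L) : Fin n → ℤ) b = ∑ i, ((f i : L) : Fin n → ℤ) b := by
      rw [AddSubgroup.val_finsetSum, Finset.sum_apply]
    rw [e]
    refine (Finset.abs_sum_le_sum_abs _ _).trans ?_
    refine (Finset.sum_le_sum (g := fun _ => (R : ℤ)) fun i _ => ?_).trans ?_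
    · have := (mem_cubeA L R (f i)).1 (hf i) b
      exact abs_le.2 this
    · simp
  rw [AddSubgroup.coe_sub, Pi.sub_apply]
  have h1 := key f hf
  have h2 := key g hg
  calc |((∑ i, f i : L) : Fin n → ℤ) b - ((∑ i, g i : L) : Fin n → ℤ) b|
      ≤ |((∑ i, f i : L) : Fin n → ℤ) b| + |((∑ i, g i : L) : Fin n → ℤ) b| := abs_sub _ _
    _ ≤ l * R + l * R := add_le_add h1 h2
    _ = _ := by ring

/-- the box of the parameters -/
def pbox {d : ℕ} (N : Fin d → ℕ) : Finset (Fin d → ℕ) := Fintype.piFinset fun i => Finset.range (N i)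

open Classical in
/-- the parameters of the progression that land in `x + l A - l A` -/
def hits {G : Type*} [AddCommGroup G] (A : Finset G) (l : ℕ) (x a : G) {d : ℕ} (v : Fin d → G)
    (N : Fin d → ℕ) : Finset (Fin d → ℕ) :=
  (pbox N).filter fun k => InDiff A l (a + ∑ i, k i • v i - x)

lemma mem_hits {G : Type*} [AddCommGroup G] (A : Finset G) (l : ℕ) (x a : G) {d : ℕ}
    (v : Fin d → G) (N : Fin d → ℕ) (k : Fin d → ℕ) :
    k ∈ hits A l x a v N ↔ (∀ i, k i < N i) ∧ InDiff A l (a + ∑ i, k i • v i - x) := by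
  classical
  rw [hits, Finset.mem_filter, pbox, Fintype.mem_piFinset]
  simp only [Finset.mem_range]

variable {n : ℕ} (L : AddSubgroup (Fin n → ℤ)) (r l : ℕ) (x a : L) {d : ℕ} (v : Fin d → L)
  (N : Fin d → ℕ)

lemma coord (k : Fin d → ℕ) (b : Fin n) :
    ((a + ∑ i, k i • v i - x : L) : Fin n → ℤ) b =
      ((a : Fin n → ℤ) b - (x : Fin n → ℤ) b) + ∑ i, (k i : ℤ) * (v i : Fin n → ℤ) b := by
  rw [AddSubgroup.coe_sub, AddSubgroup.coe_add, AddSubgroup.val_finsetSum, Pi.sub_apply,
    Pi.add_apply, Finset.sum_apply]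
  have : ∀ i, ((k i • v i : L) : Fin n → ℤ) b = (k i : ℤ) * (v i : Fin n → ℤ) b := by
    intro i
    rw [AddSubgroup.coe_nsmul, Pi.smul_apply, nsmul_eq_mul]
  simp only [this]
  ring

/-- bound for the lengths -/
lemma length_bound (hn : 0 < n) (hL : ∀ w ∈ L, w ≠ 0 → n * n < ∑ i, (w i).natAbs) (i : Fin d)
    (hv : v i ≠ 0) :
    (hits (cubeA L (9 * n * r)) l x a v N).card * N i ≤ (36 * l * r + 1) * ∏ j, N j := by
  classical
  rcases Nat.eq_zero_or_pos (N i) with h0 | h0
  · rw [h0, mul_zero]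
    exact Nat.zero_le _
  set T := hits (cubeA L (9 * n * r)) l x a v N with hT
  have h1 := Finset.card_le_mul_card_image (f := fun k : Fin d → ℕ => Function.update k i 0) T
    (36 * l * r + 1) (by
    intro y hy
    set F := {k ∈ T | Function.update k i 0 = y} with hF
    have hinj : Set.InjOn (fun k : Fin d → ℕ => k i) F := by
      intro k hk k' hk' hkk
      rw [Finset.mem_coe, hF, Finset.mem_filter] at hk hk'
      funext j
      by_cases hj : j = i
      · rw [hj]
        exact hkk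
      · have h2 := congrFun (hk.2.trans hk'.2.symm) j
        rwa [Function.update_of_ne hj, Function.update_of_ne hj] at h2
    rw [← Finset.card_image_of_injOn hinj]
    rcases Finset.eq_empty_or_nonempty (F.image fun k : Fin d → ℕ => k i) with he | hne
    · rw [he]
      simp
    set t₀ := (F.image fun k : Fin d → ℕ => k i).min' hne with ht
    have hsub : (F.image fun k : Fin d → ℕ => k i) ⊆ Finset.Icc t₀ (t₀ + 36 * l * r) := by
      intro t htm
      rw [Finset.mem_Icc]
      refine ⟨Finset.min'_le _ _ htm, ?_⟩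
      have ht0m := Finset.min'_mem _ hne
      rw [← ht] at ht0m
      obtain ⟨k, hk, rfl⟩ := Finset.mem_image.1 htm
      obtain ⟨k', hk', hk'e⟩ := Finset.mem_image.1 ht0m
      rw [hF, Finset.mem_filter] at hk hk'
      rw [hT, mem_hits] at hk hk'
      by_contra hcon
      push Not at hcon
      have hge : t₀ ≤ k i := Finset.min'_le _ _ htm
      have hdiff : ∀ b, ((k i : ℤ) - k' i) * (v i : Fin n → ℤ) b =
          ((a + ∑ i, k i • v i - x : L) : Fin n → ℤ) b -
          ((a + ∑ i, k' i • v i - x : L) : Fin n → ℤ) b := by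
        intro b
        rw [coord, coord]
        have h3 : ∑ j, (k j : ℤ) * (v j : Fin n → ℤ) b - ∑ j, (k' j : ℤ) * (v j : Fin n → ℤ) b =
            ((k i : ℤ) - k' i) * (v i : Fin n → ℤ) b := by
          rw [← Finset.sum_sub_distrib]
          rw [Finset.sum_eq_single i]
          · ring
          · intro j _ hj
            have h2 := congrFun (hk.2.trans hk'.2.symm) j
            rw [Function.update_of_ne hj, Function.update_of_ne hj] at h2
            rw [h2]
            ring
          · intro h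
            exact absurd (Finset.mem_univ _) h
        linarith
      have hb : ∀ b, ((k i : ℤ) - k' i) * |(v i : Fin n → ℤ) b| ≤ 4 * l * (9 * n * r) := by
        intro b
        have h4 := inDiff_bound L (9 * n * r) l _ hk.1.2 b
        have h5 := inDiff_bound L (9 * n * r) l _ hk'.1.2 b
        have h6 : (0 : ℤ) ≤ (k i : ℤ) - k' i := by
          have h7 : (k' i : ℤ) ≤ k i := by
            rw [hk'e]
            exact_mod_cast hge
          linarith
        have h8 : ((k i : ℤ) - k' i) * |(v i : Fin n → ℤ) b| =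
            |((k i : ℤ) - k' i) * (v i : Fin n → ℤ) b| := by
          rw [abs_mul, abs_of_nonneg h6]
        rw [h8, hdiff b]
        refine (abs_sub _ _).trans ?_
        have e9 : ((9 * n * r : ℕ) : ℤ) = 9 * n * r := by push_cast; ring
        rw [e9] at h4 h5
        linarith
      have hsum : ((k i : ℤ) - k' i) * ∑ b, |(v i : Fin n → ℤ) b| ≤ n * (4 * l * (9 * n * r)) := by
        rw [Finset.mul_sum]
        refine (Finset.sum_le_sum fun b _ => hb b).trans ?_
        simp
      have hv' : (v i : Fin n → ℤ) ≠ 0 := by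
        intro h
        exact hv (Subtype.ext h)
      have hlow := hL _ (v i).2 hv'
      have hlow' : ((n : ℤ) * n) < ∑ b, |(v i : Fin n → ℤ) b| := by
        have : ((n * n : ℕ) : ℤ) < ((∑ b, ((v i : Fin n → ℤ) b).natAbs : ℕ) : ℤ) := by
          exact_mod_cast hlow
        push_cast at this
        simpa using this
      have hki : (36 * l * r + 1 : ℤ) ≤ (k i : ℤ) - k' i := by
        have : (t₀ + 36 * l * r : ℕ) < k i := hcon
        have h9 : ((t₀ + 36 * l * r : ℕ) : ℤ) < (k i : ℤ) := by exact_mod_cast this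
        rw [hk'e]
        push_cast at h9
        linarith
      have hnn : (0 : ℤ) < (n : ℤ) * n := by positivity
      nlinarith
    calc (F.image fun k : Fin d → ℕ => k i).card ≤ (Finset.Icc t₀ (t₀ + 36 * l * r)).card :=
          Finset.card_le_card hsub
      _ = 36 * l * r + 1 := by
          rw [Nat.card_Icc]
          omega)
  have h2 : (T.image fun k : Fin d → ℕ => Function.update k i 0).card * N i ≤ ∏ j, N j := by
    have hsub : (T.image fun k : Fin d → ℕ => Function.update k i 0) ⊆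
        Fintype.piFinset fun j => Finset.range (Function.update N i 1 j) := by
      intro y hy
      obtain ⟨k, hk, rfl⟩ := Finset.mem_image.1 hy
      rw [hT, mem_hits] at hk
      rw [Fintype.mem_piFinset]
      intro j
      rw [Finset.mem_range]
      by_cases hj : j = i
      · rw [hj, Function.update_self, Function.update_self]
        exact Nat.one_pos
      · rw [Function.update_of_ne hj, Function.update_of_ne hj]
        exact hk.1 j
    have h3 := Finset.card_le_card hsub
    have h4 : (Fintype.piFinset fun j => Finset.range (Function.update N i 1 j)).card =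
        ∏ j, Function.update N i 1 j := by
      rw [Fintype.card_piFinset]
      simp
    rw [h4] at h3
    calc (T.image fun k : Fin d → ℕ => Function.update k i 0).card * N i
        ≤ (∏ j, Function.update N i 1 j) * N i := Nat.mul_le_mul_right _ h3
      _ = ∏ j, N j := by
          rw [Finset.prod_update_of_mem (Finset.mem_univ i), one_mul]
          rw [← Finset.prod_erase_mul Finset.univ N (Finset.mem_univ i)]
          congr 1
          refine Finset.prod_congr ?_ fun _ _ => rfl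
          rw [Finset.sdiff_singleton_eq_erase]
  calc T.card * N i ≤ ((36 * l * r + 1) *
        (T.image fun k : Fin d → ℕ => Function.update k i 0).card) * N i :=
        Nat.mul_le_mul_right _ h1
    _ = (36 * l * r + 1) * ((T.image fun k : Fin d → ℕ => Function.update k i 0).card * N i) := by
        ring
    _ ≤ _ := Nat.mul_le_mul_left _ h2

/-- the relevant generators -/
def rel {G : Type*} [AddCommGroup G] {d : ℕ} (v : Fin d → G) (N : Fin d → ℕ) : Finset (Fin d) :=
  by classical exact Finset.univ.filter fun i => 2 ≤ N i ∧ v i ≠ 0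

lemma mem_rel {G : Type*} [AddCommGroup G] {d : ℕ} (v : Fin d → G) (N : Fin d → ℕ) (i : Fin d) :
    i ∈ rel v N ↔ 2 ≤ N i ∧ v i ≠ 0 := by
  classical
  simp [rel]

open Classical in
/-- the progression, as a set of elements -/
def prog {G : Type*} [AddCommGroup G] {d : ℕ} (a : G) (v : Fin d → G) (N : Fin d → ℕ) : Finset G :=
  (pbox N).image fun k => a + ∑ i, k i • v i

open Classical in
lemma prog_card {G : Type*} [AddCommGroup G] {d : ℕ} (a : G) (v : Fin d → G) (N : Fin d → ℕ) :
    (prog a v N).card ≤ ∏ i ∈ rel v N, N i := by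
  classical
  have hsub : prog a v N ⊆ (Fintype.piFinset fun i => if i ∈ rel v N then Finset.range (N i)
      else {0}).image fun k => a + ∑ i, k i • v i := by
    intro z hz
    rw [prog, Finset.mem_image] at hz
    obtain ⟨k, hk, rfl⟩ := hz
    rw [pbox, Fintype.mem_piFinset] at hk
    rw [Finset.mem_image]
    refine ⟨fun i => if i ∈ rel v N then k i else 0, ?_, ?_⟩
    · rw [Fintype.mem_piFinset]
      intro i
      by_cases hi : i ∈ rel v N
      · rw [if_pos hi, if_pos hi]
        exact hk i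
      · rw [if_neg hi, if_neg hi]
        exact Finset.mem_singleton_self 0
    · congr 1
      refine Finset.sum_congr rfl fun i _ => ?_
      show (if i ∈ rel v N then k i else 0) • v i = k i • v i
      by_cases hi : i ∈ rel v N
      · rw [if_pos hi]
      · rw [if_neg hi, zero_smul]
        rw [mem_rel, not_and_or] at hi
        have hki := Finset.mem_range.1 (hk i)
        rcases hi with h | h
        · have : k i = 0 := by omega
          rw [this, zero_smul]
        · rw [not_not] at h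
          rw [h, smul_zero]
  refine (Finset.card_le_card hsub).trans (Finset.card_image_le.trans ?_)
  rw [Fintype.card_piFinset]
  rw [← Finset.prod_filter_mul_prod_filter_not Finset.univ (fun i => i ∈ rel v N)]
  have e1 : ∏ i ∈ Finset.univ.filter (fun i => ¬ i ∈ rel v N),
      (if i ∈ rel v N then Finset.range (N i) else {0}).card = 1 := by
    refine Finset.prod_eq_one fun i hi => ?_
    rw [if_neg (Finset.mem_filter.1 hi).2, Finset.card_singleton]
  rw [e1, mul_one]
  have e2 : Finset.univ.filter (fun i => i ∈ rel v N) = rel v N := by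
    ext i
    simp
  rw [e2]
  refine le_of_eq (Finset.prod_congr rfl fun i hi => ?_)
  rw [if_pos hi, Finset.card_range]

/-- bound for the rank -/
lemma rank_bound (hn : 0 < n) (hr : 1 ≤ r) (hl : 1 ≤ l)
    (hL : ∀ w ∈ L, w ≠ 0 → n * n < ∑ i, (w i).natAbs) (δ : ℝ) (hδ : 0 < δ)
    (hN : 0 < ∏ i, (N i : ℝ))
    (hT : δ * ∏ i, (N i : ℝ) ≤ (hits (cubeA L (9 * n * r)) l x a v N).card) :
    ((rel v N).card : ℝ) ≤ 43812 * (l * r / δ) ^ 2 + 3 := by
  classical
  have hl' : (1 : ℝ) ≤ l := by exact_mod_cast hl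
  have hr' : (1 : ℝ) ≤ r := by exact_mod_cast hr
  rcases Finset.eq_empty_or_nonempty (rel v N) with he | hne
  · rw [he]
    simp
    positivity
  have hn' : (0 : ℝ) < n := by exact_mod_cast hn
  set Λ : ℝ := Real.sqrt ((n : ℝ) ^ 3) with hΛ
  have hΛ0 : 0 < Λ := Real.sqrt_pos.2 (by positivity)
  have hΛ2 : Λ ^ 2 = (n : ℝ) ^ 3 := Real.sq_sqrt (by positivity)
  set ρ : ℝ := 18 * l * r * Λ with hρ
  have hρ0 : 0 < ρ := by positivity
  have hrat : ρ / Λ = 18 * l * r := by
    rw [hρ]
    field_simp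
  have hlo := lo_bound n d (fun i b => (((v i : Fin n → ℤ) b : ℤ) : ℝ)) N
    (fun b => (((a : Fin n → ℤ) b - (x : Fin n → ℤ) b : ℤ) : ℝ)) ρ Λ hρ0 hΛ0 (rel v N) (by
      intro i hi
      rw [mem_rel] at hi
      refine ⟨hi.1, ?_⟩
      rw [hΛ2]
      refine norm_lower n hn _ (hL _ (v i).2 ?_)
      intro h
      exact hi.2 (Subtype.ext h)) hne
  have hsub : hits (cubeA L (9 * n * r)) l x a v N ⊆
      (Fintype.piFinset fun i => Finset.range (N i)).filter
      fun k => ∑ b, ((((a : Fin n → ℤ) b - (x : Fin n → ℤ) b : ℤ) : ℝ) +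
        ∑ i, (k i : ℝ) * (((v i : Fin n → ℤ) b : ℤ) : ℝ)) ^ 2 ≤ ρ ^ 2 := by
    intro k hk
    rw [mem_hits] at hk
    rw [Finset.mem_filter, Fintype.mem_piFinset]
    refine ⟨fun i => Finset.mem_range.2 (hk.1 i), ?_⟩
    have h1 : ∀ b, ((((a : Fin n → ℤ) b - (x : Fin n → ℤ) b : ℤ) : ℝ) +
        ∑ i, (k i : ℝ) * (((v i : Fin n → ℤ) b : ℤ) : ℝ)) ^ 2 ≤ (2 * l * (9 * n * r)) ^ 2 := by
      intro b
      have h2 := inDiff_bound L (9 * n * r) l _ hk.2 b
      rw [coord] at h2
      have h3 : |((((a : Fin n → ℤ) b - (x : Fin n → ℤ) b : ℤ) : ℝ) +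
        ∑ i, (k i : ℝ) * (((v i : Fin n → ℤ) b : ℤ) : ℝ))| ≤ 2 * l * (9 * n * r) := by
        have h4 : ((|((a : Fin n → ℤ) b - (x : Fin n → ℤ) b) +
          ∑ i, (k i : ℤ) * (v i : Fin n → ℤ) b| : ℤ) : ℝ) ≤
          ((2 * l * ((9 * n * r : ℕ) : ℤ) : ℤ) : ℝ) := by exact_mod_cast h2
        push_cast at h4 ⊢
        exact h4
      rw [← sq_abs]
      exact pow_le_pow_left₀ (abs_nonneg _) h3 2
    refine (Finset.sum_le_sum fun b _ => h1 b).trans (le_of_eq ?_)
    have e10 : ρ ^ 2 = (18 * l * r) ^ 2 * (n : ℝ) ^ 3 := by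
      rw [hρ, mul_pow _ Λ, hΛ2]
    rw [Finset.sum_const, Finset.card_univ, Fintype.card_fin, nsmul_eq_mul, e10]
    ring
  have hcard : ((hits (cubeA L (9 * n * r)) l x a v N).card : ℝ) ≤ _ :=
    (Nat.cast_le.2 (Finset.card_le_card hsub)).trans hlo
  set j := (rel v N).card / 4 with hj
  rw [hrat] at hcard
  have hs : 0 < Real.sqrt (2 * (j : ℝ) + 1) := Real.sqrt_pos.2 (by positivity)
  have h1 : δ * ∏ i, (N i : ℝ) ≤ 2 * (∏ i, (N i : ℝ)) *
      ((2 + 4 * (18 * l * r)) / Real.sqrt (2 * (j : ℝ) + 1)) := hT.trans hcard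
  have h2 : δ ≤ 2 * ((2 + 4 * (18 * l * r)) / Real.sqrt (2 * (j : ℝ) + 1)) := by
    have : (∏ i, (N i : ℝ)) * δ ≤ (∏ i, (N i : ℝ)) *
        (2 * ((2 + 4 * (18 * l * r)) / Real.sqrt (2 * (j : ℝ) + 1))) := by
      calc (∏ i, (N i : ℝ)) * δ = δ * ∏ i, (N i : ℝ) := mul_comm _ _
        _ ≤ _ := h1
        _ = _ := by ring
    exact le_of_mul_le_mul_left this hN
  have h3 : δ * Real.sqrt (2 * (j : ℝ) + 1) ≤ 148 * (l * r) := by
    rw [← mul_div_assoc, le_div_iff₀ hs] at h2
    have : (1 : ℝ) ≤ l * r := by nlinarith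
    nlinarith
  have h4 : Real.sqrt (2 * (j : ℝ) + 1) ≤ 148 * (l * r / δ) := by
    rw [← mul_div_assoc, le_div_iff₀ hδ]
    linarith
  have h5 : 2 * (j : ℝ) + 1 ≤ (148 * (l * r / δ)) ^ 2 := by
    have := pow_le_pow_left₀ hs.le h4 2
    rwa [Real.sq_sqrt (by positivity)] at this
  have h6 : ((rel v N).card : ℝ) ≤ 4 * j + 3 := by
    have : (rel v N).card ≤ 4 * j + 3 := by omega
    exact_mod_cast this
  have h7 : (148 * (l * r / δ)) ^ 2 = 21904 * (l * r / δ) ^ 2 := by ring
  rw [h7] at h5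
  have h8 : 0 ≤ (l * r / δ) ^ 2 := by positivity
  linarith

open Classical in
/-- bound for the number of elements -/
theorem size_bound (hn : 0 < n) (hr : 1 ≤ r) (hl : 1 ≤ l)
    (hL : ∀ w ∈ L, w ≠ 0 → n * n < ∑ i, (w i).natAbs) (δ : ℝ) (hδ : 0 < δ) (hδ1 : δ ≤ 1)
    (hN : 0 < ∏ i, (N i : ℝ))
    (hT : δ * ∏ i, (N i : ℝ) ≤ (hits (cubeA L (9 * n * r)) l x a v N).card) :
    ((prog a v N).card : ℝ) ≤ Real.exp (43815 * (l * r / δ) ^ 2 * Real.log (37 * (l * r / δ))) := by
  have hl' : (1 : ℝ) ≤ l := by exact_mod_cast hl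
  have hr' : (1 : ℝ) ≤ r := by exact_mod_cast hr
  have hlr : (1 : ℝ) ≤ l * r := by nlinarith
  have hq : (1 : ℝ) ≤ l * r / δ := by
    rw [le_div_iff₀ hδ]
    linarith
  have h1 : ∀ i ∈ rel v N, (N i : ℝ) ≤ 37 * (l * r / δ) := by
    intro i hi
    rw [mem_rel] at hi
    have h2 := length_bound L r l x a v N hn hL i hi.2
    have h3 : ((hits (cubeA L (9 * n * r)) l x a v N).card : ℝ) * N i ≤
        (36 * l * r + 1) * ∏ j, (N j : ℝ) := by exact_mod_cast h2
    have h4 : δ * N i * ∏ j, (N j : ℝ) ≤ (36 * l * r + 1) * ∏ j, (N j : ℝ) := by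
      calc δ * N i * ∏ j, (N j : ℝ) = (δ * ∏ j, (N j : ℝ)) * N i := by ring
        _ ≤ ((hits (cubeA L (9 * n * r)) l x a v N).card : ℝ) * N i :=
            mul_le_mul_of_nonneg_right hT (by positivity)
        _ ≤ _ := h3
    have h5 := le_of_mul_le_mul_right h4 hN
    rw [← mul_div_assoc, le_div_iff₀ hδ]
    nlinarith
  have h6 : ((prog a v N).card : ℝ) ≤ (37 * (l * r / δ)) ^ (rel v N).card := by
    calc ((prog a v N).card : ℝ) ≤ ((∏ i ∈ rel v N, N i : ℕ) : ℝ) := by
          exact_mod_cast prog_card a v N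
      _ = ∏ i ∈ rel v N, (N i : ℝ) := by push_cast; rfl
      _ ≤ ∏ _i ∈ rel v N, (37 * (l * r / δ)) :=
          Finset.prod_le_prod (fun _ _ => by positivity) h1
      _ = _ := by rw [Finset.prod_const]
  refine h6.trans ?_
  have h7 := rank_bound L r l x a v N hn hr hl hL δ hδ hN hT
  have h8 : (0 : ℝ) < 37 * (l * r / δ) := by positivity
  have h9 : 0 ≤ Real.log (37 * (l * r / δ)) := Real.log_nonneg (by linarith)
  rw [← Real.exp_log (pow_pos h8 _)]
  rw [Real.log_pow]
  refine Real.exp_le_exp.2 (mul_le_mul_of_nonneg_right ?_ h9)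
  have : (1 : ℝ) ≤ (l * r / δ) ^ 2 := one_le_pow₀ hq
  linarith

end Pool.Agent.Q137.NC
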