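import Pool.Agent.Q137.NC.Main

/-! # Definitions for the statement -/

set_option autoImplicit false

open Finset
open scoped Pointwise

namespace Pool.Agent.Q137.NC

/-- The elements of the progression `{a + ∑ k_i v_i : 0 ≤ k_i < N_i}` of rank `d`. -/
def elems {G : Type*} [AddCommGroup G] {d : ℕ} (a : G) (v : Fin d → G) (N : Fin d → ℕ) : Set G :=
  {z | ∃ k : Fin d → ℕ, (∀ i, k i < N i) ∧ z = a + ∑ i, k i • v i}

/-- The parameters `k` of the progression with `a + ∑ k_i v_i ∈ x + l A - l A`. -/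
def params {G : Type*} [AddCommGroup G] (A : Finset G) (l : ℕ) (x a : G) {d : ℕ} (v : Fin d → G)
    (N : Fin d → ℕ) : Set (Fin d → ℕ) :=
  {k | (∀ i, k i < N i) ∧ InDiff A l (a + ∑ i, k i • v i - x)}

/-- Every progression in `G`, of any rank, with at least the proportion `δ` of its parameters in a
translate of `l A - l A`, where `l ≤ δ B`, has at most `E` elements. -/
def OnlySmall {G : Type*} [AddCommGroup G] (A : Finset G) (B E : ℝ) : Prop :=
  ∀ (d : ℕ) (a : G) (v : Fin d → G) (N : Fin d → ℕ) (x : G) (l : ℕ) (δ : ℝ),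
    (∀ i, 1 ≤ N i) → 1 ≤ l → 0 < δ → (l : ℝ) ≤ δ * B →
    δ * ∏ i, (N i : ℝ) ≤ ((params A l x a v N).ncard : ℝ) → ((elems a v N).ncard : ℝ) ≤ E

lemma elems_eq {G : Type*} [AddCommGroup G] {d : ℕ} (a : G) (v : Fin d → G) (N : Fin d → ℕ) :
    (elems a v N).ncard = (prog a v N).card := by
  have : elems a v N = ↑(prog a v N) := by
    ext z
    rw [Finset.mem_coe, mem_prog]
    rfl
  rw [this, Set.ncard_coe_finset]

lemma params_eq {G : Type*} [AddCommGroup G] (A : Finset G) (l : ℕ) (x a : G) {d : ℕ}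
    (v : Fin d → G) (N : Fin d → ℕ) : (params A l x a v N).ncard = (hits A l x a v N).card := by
  have : params A l x a v N = ↑(hits A l x a v N) := by
    ext k
    rw [Finset.mem_coe, mem_hits]
    rfl
  rw [this, Set.ncard_coe_finset]

/-- `A` is nonempty, `|A + A| ≤ K |A|` and `|A| ≥ M`. -/
def Doubling {G : Type*} [AddCommGroup G] (A : Finset G) (K M : ℝ) : Prop :=
  A.Nonempty ∧ ((((A : Set G) + (A : Set G)).ncard : ℕ) : ℝ) ≤ K * (A.card : ℝ) ∧ M ≤ (A.card : ℝ)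

theorem main2 (β : ℝ) (hβ0 : 0 ≤ β) (hβ : β < 1 / 2) :
    ∃ c : ℝ, 0 < c ∧ ∀ ε : ℝ, 0 < ε → ∃ K₀ : ℝ, ∀ K : ℝ, K₀ ≤ K →
      ∃ (n : ℕ) (L : AddSubgroup (Fin n → ℤ)) (A : Finset L),
        Doubling A K (K ^ (c * Real.log (Real.log K))) ∧
        OnlySmall A (Real.log K ^ β) (K ^ ε) := by
  obtain ⟨c, hc, h⟩ := main β hβ0 hβ
  refine ⟨c, hc, fun ε hε => ?_⟩
  obtain ⟨K₀, hK₀⟩ := h ε hε
  refine ⟨K₀, fun K hK => ?_⟩
  obtain ⟨n, L, A, h1, h2, h3, h4⟩ := hK₀ K hK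
  refine ⟨n, L, A, ⟨h1, ?_, h3⟩, fun d a v N x l δ hN hl hδ hlδ hT => ?_⟩
  · rw [← Finset.coe_add, Set.ncard_coe_finset]
    exact h2
  · rw [params_eq] at hT
    rw [elems_eq]
    exact h4 d a v N x l δ hl hδ hlδ hN hT

end Pool.Agent.Q137.NC
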