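import Mathlib

/-! # Gaussian averages of exponential sums -/

set_option autoImplicit false

open MeasureTheory ProbabilityTheory Finset

noncomputable section

namespace Pool.Agent.Q137.NC

/-- The standard Gaussian measure on `ℝ ^ n`. -/
def gam (n : ℕ) : Measure (Fin n → ℝ) := Measure.pi fun _ => gaussianReal 0 1

instance (n : ℕ) : IsProbabilityMeasure (gam n) := by
  unfold gam
  infer_instance

lemma gam_char (n : ℕ) (z : Fin n → ℝ) :
    ∫ g, Complex.exp (((∑ a, g a * z a : ℝ) : ℂ) * Complex.I) ∂(gam n) =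
      ((Real.exp (-(∑ a, z a ^ 2) / 2) : ℝ) : ℂ) := by
  have h1 : ∀ g : Fin n → ℝ, Complex.exp (((∑ a, g a * z a : ℝ) : ℂ) * Complex.I) =
      ∏ a, Complex.exp ((z a : ℂ) * (g a : ℂ) * Complex.I) := by
    intro g
    rw [← Complex.exp_sum, ← Finset.sum_mul]
    congr 2
    push_cast
    exact Finset.sum_congr rfl fun a _ => mul_comm _ _
  simp only [h1]
  unfold gam
  rw [integral_fintype_prod_eq_prod (fun a (x : ℝ) => Complex.exp ((z a : ℂ) * (x : ℂ) * Complex.I))]
  have h2 : ∀ a, ∫ x, Complex.exp ((z a : ℂ) * (x : ℂ) * Complex.I) ∂(gaussianReal 0 1) =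
      Complex.exp (-(z a : ℂ) ^ 2 / 2) := by
    intro a
    rw [← charFun_apply_real, charFun_gaussianReal]
    congr 1
    push_cast
    ring
  simp only [h2]
  rw [← Complex.exp_sum]
  push_cast
  congr 1
  rw [← Finset.sum_div, Finset.sum_neg_distrib]

/-- `C(2j, j) ≤ 4 ^ j / sqrt (2 j + 1)` -/
lemma centralBinom_sq (j : ℕ) : (2 * j + 1) * j.centralBinom ^ 2 ≤ 16 ^ j := by
  induction j with
  | zero => simp
  | succ j ih =>
    have h := Nat.succ_mul_centralBinom_succ j
    have h1 : (j + 1) ^ 2 * ((2 * (j + 1) + 1) * (j + 1).centralBinom ^ 2) ≤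
        (j + 1) ^ 2 * 16 ^ (j + 1) := by
      calc (j + 1) ^ 2 * ((2 * (j + 1) + 1) * (j + 1).centralBinom ^ 2)
          = (2 * j + 3) * ((j + 1) * (j + 1).centralBinom) ^ 2 := by ring
        _ = (2 * j + 3) * (2 * (2 * j + 1) * j.centralBinom) ^ 2 := by rw [h]
        _ = 4 * ((2 * j + 3) * (2 * j + 1)) * ((2 * j + 1) * j.centralBinom ^ 2) := by ring
        _ ≤ 4 * (4 * (j + 1) ^ 2) * 16 ^ j := by
            refine Nat.mul_le_mul (Nat.mul_le_mul_left _ ?_) ih
            nlinarith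
        _ = (j + 1) ^ 2 * 16 ^ (j + 1) := by ring
    exact Nat.le_of_mul_le_mul_left h1 (by positivity)

lemma centralBinom_le (j : ℕ) :
    (j.centralBinom : ℝ) / 4 ^ j ≤ 1 / Real.sqrt (2 * j + 1) := by
  have h := centralBinom_sq j
  have h1 : ((2 * j + 1 : ℕ) : ℝ) * (j.centralBinom : ℝ) ^ 2 ≤ 16 ^ j := by exact_mod_cast h
  have hs : 0 < Real.sqrt (2 * j + 1) := Real.sqrt_pos.2 (by positivity)
  rw [div_le_div_iff₀ (by positivity) hs]
  have h2 : (j.centralBinom * Real.sqrt (2 * j + 1)) ^ 2 ≤ ((4 : ℝ) ^ j) ^ 2 := by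
    rw [mul_pow, Real.sq_sqrt (by positivity)]
    have e : ((4 : ℝ) ^ j) ^ 2 = 16 ^ j := by
      rw [← pow_mul, mul_comm, pow_mul]
      norm_num
    rw [e]
    push_cast at h1
    linarith
  rw [one_mul]
  exact le_of_sq_le_sq h2 (by positivity)

/-- theta type sum -/
lemma theta_sum (j : ℕ) (k : ℝ) (hk : 0 < k) :
    ∑ l ∈ Finset.range (2 * j + 1), Real.exp (-(((l : ℝ) - j) * k) ^ 2 / 2) ≤ 1 + 4 / k := by
  have hb : ∀ t : ℝ, Real.exp (-(t * k) ^ 2 / 2) ≤ 2 * Real.exp (-(t * k)) := by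
    intro t
    have h1 : -(t * k) ^ 2 / 2 ≤ 1 / 2 - t * k := by nlinarith [sq_nonneg (t * k - 1)]
    have h2 : Real.exp (1 / 2) ≤ 2 := by
      have h3 : Real.exp (1 / 2) ^ 2 ≤ 2 ^ 2 := by
        rw [← Real.exp_nat_mul]
        norm_num
        have := Real.exp_one_lt_three
        linarith
      exact le_of_sq_le_sq h3 (by norm_num) 
    calc Real.exp (-(t * k) ^ 2 / 2) ≤ Real.exp (1 / 2 - t * k) := Real.exp_le_exp.2 h1
      _ = Real.exp (1 / 2) * Real.exp (-(t * k)) := by rw [← Real.exp_add]; ring_nf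
      _ ≤ _ := mul_le_mul_of_nonneg_right h2 (Real.exp_pos _).le
  have hgeo : ∑ x ∈ Finset.range j, Real.exp (-(((x : ℝ) + 1) * k)) ≤ 1 / k := by
    set q := Real.exp (-k) with hq
    have q0 : 0 < q := Real.exp_pos _
    have q1 : q < 1 := by
      rw [hq, Real.exp_lt_one_iff]
      linarith
    have e : ∀ x : ℕ, Real.exp (-(((x : ℝ) + 1) * k)) = q * q ^ x := by
      intro x
      rw [hq, ← Real.exp_nat_mul, ← Real.exp_add]
      congr 1
      ring
    simp only [e]
    rw [← Finset.mul_sum, geom_sum_eq q1.ne, ← neg_div_neg_eq]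
    have h1 : q * (1 + k) ≤ 1 := by
      have h2 : 1 + k ≤ Real.exp k := by
        have := Real.add_one_le_exp k
        linarith
      calc q * (1 + k) ≤ q * Real.exp k := mul_le_mul_of_nonneg_left h2 q0.le
        _ = 1 := by rw [hq, ← Real.exp_add, neg_add_cancel, Real.exp_zero]
    have h3 : 0 < -(q - 1) := by linarith
    rw [mul_div_assoc', div_le_div_iff₀ h3 hk]
    have : 0 ≤ q ^ j := by positivity
    nlinarith [mul_nonneg (mul_nonneg q0.le this) hk.le]
  have hsplit : 2 * j + 1 = j + (j + 1) := by ring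
  rw [hsplit, Finset.sum_range_add, Finset.sum_range_succ']
  have hA : ∑ x ∈ Finset.range j, Real.exp (-(((x : ℝ) - j) * k) ^ 2 / 2) ≤ 2 / k := by
    rw [← Finset.sum_range_reflect]
    calc ∑ x ∈ Finset.range j, Real.exp (-((((j - 1 - x : ℕ) : ℝ) - j) * k) ^ 2 / 2)
        ≤ ∑ x ∈ Finset.range j, 2 * Real.exp (-(((x : ℝ) + 1) * k)) := by
          refine Finset.sum_le_sum fun x hx => ?_
          have hxj : x < j := Finset.mem_range.1 hx
          have e : (((j - 1 - x : ℕ) : ℝ) - j) = -((x : ℝ) + 1) := by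
            rw [Nat.sub_sub, Nat.cast_sub (by omega)]
            push_cast
            ring
          rw [e]
          have := hb ((x : ℝ) + 1)
          have e2 : -(-((x : ℝ) + 1) * k) ^ 2 / 2 = -((((x : ℝ) + 1) * k)) ^ 2 / 2 := by ring
          rw [e2]
          exact this
      _ = 2 * ∑ x ∈ Finset.range j, Real.exp (-(((x : ℝ) + 1) * k)) := by rw [Finset.mul_sum]
      _ ≤ 2 * (1 / k) := mul_le_mul_of_nonneg_left hgeo (by norm_num)
      _ = 2 / k := by ring
  have hB : ∑ x ∈ Finset.range j, Real.exp (-((((j + (x + 1) : ℕ) : ℝ) - j) * k) ^ 2 / 2) ≤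
      2 / k := by
    calc ∑ x ∈ Finset.range j, Real.exp (-((((j + (x + 1) : ℕ) : ℝ) - j) * k) ^ 2 / 2)
        ≤ ∑ x ∈ Finset.range j, 2 * Real.exp (-(((x : ℝ) + 1) * k)) := by
          refine Finset.sum_le_sum fun x hx => ?_
          have e : (((j + (x + 1) : ℕ) : ℝ) - j) = ((x : ℝ) + 1) := by
            push_cast
            ring
          rw [e]
          exact hb ((x : ℝ) + 1)
      _ = 2 * ∑ x ∈ Finset.range j, Real.exp (-(((x : ℝ) + 1) * k)) := by rw [Finset.mul_sum]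
      _ ≤ 2 * (1 / k) := mul_le_mul_of_nonneg_left hgeo (by norm_num)
      _ = 2 / k := by ring
  have hC : Real.exp (-((((j + 0 : ℕ) : ℝ) - j) * k) ^ 2 / 2) = 1 := by
    simp
  rw [hC]
  have : 4 / k = 2 / k + 2 / k := by ring
  linarith

end Pool.Agent.Q137.NC
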