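import Pool.Agent.Q137.NC.Osc

/-! # Anticoncentration of the parameter boxes of progressions in Euclidean space -/

set_option autoImplicit false

open MeasureTheory ProbabilityTheory Finset

noncomputable section

namespace Pool.Agent.Q137.NC

lemma quarter_le (j : ℕ) : (1 / 4 : ℝ) ^ j ≤ 1 / Real.sqrt (2 * j + 1) := by
  refine le_trans ?_ (centralBinom_le j)
  rw [one_div, inv_pow, ← one_div]
  refine div_le_div_of_nonneg_right ?_ (by positivity)
  exact_mod_cast (Nat.centralBinom_pos j)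

lemma integrable_cos (n : ℕ) (z : Fin n → ℝ) (j : ℕ) :
    Integrable (fun g : Fin n → ℝ => Real.cos ((∑ a, g a * z a) / 2) ^ (2 * j)) (gam n) := by
  refine Integrable.of_bound (C := 1) ?_ (Filter.Eventually.of_forall fun g => ?_)
  · refine Continuous.aestronglyMeasurable ?_
    have := continuous_lin n z
    fun_prop
  · rw [norm_pow]
    exact pow_le_one₀ (norm_nonneg _) (Real.abs_cos_le_one _)

lemma amgm {ι : Type*} (I : Finset ι) (hI : I.Nonempty) (f : ι → ℝ) (hf : ∀ i ∈ I, 0 ≤ f i) :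
    ∏ i ∈ I, f i ≤ (1 / (I.card : ℝ)) * ∑ i ∈ I, f i ^ I.card := by
  have hc : (0 : ℝ) < I.card := by exact_mod_cast hI.card_pos
  have h := Real.geom_mean_le_arith_mean_weighted I (fun _ => 1 / (I.card : ℝ))
    (fun i => f i ^ I.card) (fun _ _ => by positivity) (by
      rw [Finset.sum_const, nsmul_eq_mul]
      field_simp) (fun i hi => pow_nonneg (hf i hi) _)
  rw [Finset.mul_sum]
  refine le_trans (le_of_eq ?_) h
  refine Finset.prod_congr rfl fun i hi => ?_
  rw [← Real.rpow_natCast, ← Real.rpow_mul (hf i hi)]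
  rw [mul_one_div_cancel hc.ne', Real.rpow_one]

theorem lo_bound (n d : ℕ) (v : Fin d → Fin n → ℝ) (N : Fin d → ℕ) (x : Fin n → ℝ) (ρ Λ : ℝ)
    (hρ : 0 < ρ) (hΛ : 0 < Λ) (I : Finset (Fin d)) (hI : ∀ i ∈ I, 2 ≤ N i ∧ Λ ^ 2 ≤ ∑ a, v i a ^ 2)
    (hIne : I.Nonempty) :
    (((Fintype.piFinset fun i => Finset.range (N i)).filter
      fun k => ∑ a, (x a + ∑ i, (k i : ℝ) * v i a) ^ 2 ≤ ρ ^ 2).card : ℝ) ≤
      2 * (∏ i, (N i : ℝ)) * ((2 + 4 * (ρ / Λ)) / Real.sqrt (2 * ((I.card / 4 : ℕ) : ℝ) + 1)) := by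
  classical
  set j := I.card / 4 with hj
  set box := Fintype.piFinset fun i => Finset.range (N i) with hbox
  set y : (Fin d → ℕ) → Fin n → ℝ := fun k a => (x a + ∑ i, (k i : ℝ) * v i a) / ρ with hy
  set W : ℝ := ∑ k ∈ box, Real.exp (-(∑ a, y k a ^ 2) / 2) with hW
  -- step 1
  have step1 : ((box.filter fun k => ∑ a, (x a + ∑ i, (k i : ℝ) * v i a) ^ 2 ≤ ρ ^ 2).card : ℝ) ≤
      2 * W := by
    have h1 : ∀ k ∈ box.filter (fun k => ∑ a, (x a + ∑ i, (k i : ℝ) * v i a) ^ 2 ≤ ρ ^ 2),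
        (1 : ℝ) ≤ 2 * Real.exp (-(∑ a, y k a ^ 2) / 2) := by
      intro k hk
      have h2 : ∑ a, y k a ^ 2 ≤ 1 := by
        have h3 := (Finset.mem_filter.1 hk).2
        simp only [hy, div_pow]
        rw [← Finset.sum_div, div_le_one (by positivity)]
        exact h3
      have h4 : Real.exp (-1 / 2) ≤ Real.exp (-(∑ a, y k a ^ 2) / 2) :=
        Real.exp_le_exp.2 (by linarith)
      have h5 : (1 : ℝ) / 2 ≤ Real.exp (-1 / 2) := by
        have := Real.add_one_le_exp (-1 / 2 : ℝ)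
        linarith
      linarith
    calc ((box.filter fun k => ∑ a, (x a + ∑ i, (k i : ℝ) * v i a) ^ 2 ≤ ρ ^ 2).card : ℝ)
        = ∑ k ∈ box.filter (fun k => ∑ a, (x a + ∑ i, (k i : ℝ) * v i a) ^ 2 ≤ ρ ^ 2), (1 : ℝ) := by
          simp
      _ ≤ ∑ k ∈ box.filter (fun k => ∑ a, (x a + ∑ i, (k i : ℝ) * v i a) ^ 2 ≤ ρ ^ 2),
          2 * Real.exp (-(∑ a, y k a ^ 2) / 2) := Finset.sum_le_sum h1
      _ ≤ ∑ k ∈ box, 2 * Real.exp (-(∑ a, y k a ^ 2) / 2) :=
          Finset.sum_le_sum_of_subset_of_nonneg (Finset.filter_subset _ _)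
            fun _ _ _ => by positivity
      _ = 2 * W := by rw [hW, Finset.mul_sum]
  -- step 2
  set S : (Fin n → ℝ) → ℂ := fun g => ∑ k ∈ box,
    Complex.exp (((∑ a, g a * y k a : ℝ) : ℂ) * Complex.I) with hS
  have step2 : W ≤ ∫ g, ‖S g‖ ∂(gam n) := by
    have h1 : ((W : ℝ) : ℂ) = ∫ g, S g ∂(gam n) := by
      rw [hS, hW]
      have hI' : ∀ k ∈ box, Integrable (fun g : Fin n → ℝ =>
          Complex.exp (((∑ a, g a * y k a : ℝ) : ℂ) * Complex.I)) (gam n) := by
        intro k _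
        have := integrable_cexp n (y k) 1
        simpa using this
      rw [integral_finsetSum _ hI', Complex.ofReal_sum]
      exact Finset.sum_congr rfl fun k _ => (gam_char n (y k)).symm
    have h2 : 0 ≤ W := Finset.sum_nonneg fun _ _ => (Real.exp_pos _).le
    calc W = ‖((W : ℝ) : ℂ)‖ := by rw [Complex.norm_real, Real.norm_of_nonneg h2]
      _ ≤ _ := by
          rw [h1]
          exact norm_integral_le_integral_norm _
  -- step 3
  have step3 : ∀ g, ‖S g‖ ≤ (∏ i, (N i : ℝ)) * ((1 / (I.card : ℝ)) * ∑ i ∈ I,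
      (Real.cos ((∑ a, g a * (v i a / ρ)) / 2) ^ (2 * j) + (1 / 4) ^ j)) := by
    intro g
    have h1 : S g = Complex.exp (((∑ a, g a * (x a / ρ) : ℝ) : ℂ) * Complex.I) *
        ∏ i, ∑ t ∈ Finset.range (N i),
          Complex.exp (((t * ∑ a, g a * (v i a / ρ) : ℝ) : ℂ) * Complex.I) := by
      rw [hS, Finset.prod_univ_sum, Finset.mul_sum]
      refine Finset.sum_congr rfl fun k _ => ?_
      rw [← Complex.exp_sum, ← Complex.exp_add]
      congr 1
      rw [← Finset.sum_mul, ← add_mul]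
      congr 1
      rw [← Complex.ofReal_sum, ← Complex.ofReal_add]
      congr 1
      simp only [hy, Finset.mul_sum]
      rw [Finset.sum_comm, ← Finset.sum_add_distrib]
      refine Finset.sum_congr rfl fun a _ => ?_
      rw [add_div, mul_add, Finset.sum_div, Finset.mul_sum]
      congr 1
      exact Finset.sum_congr rfl fun i _ => by ring
    have h2 : ‖S g‖ ≤ ∏ i, ((N i : ℝ) * (if i ∈ I then FF (∑ a, g a * (v i a / ρ)) else 1)) := by
      rw [h1, norm_mul, Complex.norm_exp_ofReal_mul_I, one_mul, norm_prod]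
      refine Finset.prod_le_prod (fun _ _ => norm_nonneg _) fun i _ => ?_
      by_cases hi : i ∈ I
      · rw [if_pos hi]
        obtain ⟨M, hM⟩ : ∃ M, N i = M + 2 := ⟨N i - 2, by have := (hI i hi).1; omega⟩
        rw [hM]
        exact dirichlet_bound _ M
      · rw [if_neg hi, mul_one]
        exact dirichlet_bound' _ _
    refine h2.trans ?_
    rw [Finset.prod_mul_distrib]
    refine mul_le_mul_of_nonneg_left ?_ (by positivity)
    have h3 : (∏ i, (if i ∈ I then FF (∑ a, g a * (v i a / ρ)) else 1)) =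
        ∏ i ∈ I, FF (∑ a, g a * (v i a / ρ)) := by
      rw [Finset.prod_ite_mem, Finset.univ_inter]
    rw [h3]
    refine (amgm I hIne _ fun i _ => FF_nonneg _).trans ?_
    refine mul_le_mul_of_nonneg_left (Finset.sum_le_sum fun i _ => ?_) (by positivity)
    refine le_trans ?_ (FF_pow _ j)
    exact pow_le_pow_of_le_one (FF_nonneg _) (FF_le_one _) (by omega)
  -- step 4
  have hc : (0 : ℝ) < I.card := by exact_mod_cast hIne.card_pos
  have hs : 0 < Real.sqrt (2 * (j : ℝ) + 1) := Real.sqrt_pos.2 (by positivity)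
  have hint : Integrable (fun g : Fin n → ℝ => (∏ i, (N i : ℝ)) * ((1 / (I.card : ℝ)) * ∑ i ∈ I,
      (Real.cos ((∑ a, g a * (v i a / ρ)) / 2) ^ (2 * j) + (1 / 4) ^ j))) (gam n) := by
    refine Integrable.const_mul (Integrable.const_mul ?_ _) _
    refine integrable_finsetSum _ fun i _ => ?_
    exact (integrable_cos n (fun a => v i a / ρ) j).add (integrable_const _)
  have step4 : ∫ g, ‖S g‖ ∂(gam n) ≤
      (∏ i, (N i : ℝ)) * ((2 + 4 * (ρ / Λ)) / Real.sqrt (2 * (j : ℝ) + 1)) := by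
    refine (integral_mono_of_nonneg (Filter.Eventually.of_forall fun g => norm_nonneg _) hint
      (Filter.Eventually.of_forall step3)).trans ?_
    rw [integral_const_mul, integral_const_mul]
    refine mul_le_mul_of_nonneg_left ?_ (by positivity)
    have hI2 : ∀ i ∈ I, Integrable (fun g : Fin n → ℝ =>
        Real.cos ((∑ a, g a * (v i a / ρ)) / 2) ^ (2 * j) + (1 / 4 : ℝ) ^ j) (gam n) := fun i _ =>
      (integrable_cos n (fun a => v i a / ρ) j).add (integrable_const _)
    rw [integral_finsetSum _ hI2]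
    have h1 : ∀ i ∈ I, ∫ g, (Real.cos ((∑ a, g a * (v i a / ρ)) / 2) ^ (2 * j) +
        (1 / 4 : ℝ) ^ j) ∂(gam n) ≤ (2 + 4 * (ρ / Λ)) / Real.sqrt (2 * (j : ℝ) + 1) := by
      intro i hi
      rw [integral_add (integrable_cos n (fun a => v i a / ρ) j) (integrable_const _),
        integral_const, probReal_univ, one_smul]
      have h2 := gam_cos n (fun a => v i a / ρ) (Λ / ρ) (by positivity) (by
        simp only [div_pow]
        rw [← Finset.sum_div]
        exact div_le_div_of_nonneg_right (hI i hi).2 (by positivity)) j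
      have h3 := quarter_le j
      have e : 4 / (Λ / ρ) = 4 * (ρ / Λ) := by
        field_simp
      rw [e] at h2
      calc _ ≤ (1 + 4 * (ρ / Λ)) / Real.sqrt (2 * (j : ℝ) + 1) +
            1 / Real.sqrt (2 * (j : ℝ) + 1) := add_le_add h2 h3
        _ = _ := by ring
    calc (1 / (I.card : ℝ)) * ∑ i ∈ I, ∫ g, (Real.cos ((∑ a, g a * (v i a / ρ)) / 2) ^ (2 * j) +
        (1 / 4 : ℝ) ^ j) ∂(gam n)
        ≤ (1 / (I.card : ℝ)) * ∑ i ∈ I, (2 + 4 * (ρ / Λ)) / Real.sqrt (2 * (j : ℝ) + 1) :=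
          mul_le_mul_of_nonneg_left (Finset.sum_le_sum h1) (by positivity)
      _ = _ := by
          rw [Finset.sum_const, nsmul_eq_mul]
          field_simp
  calc _ ≤ 2 * W := step1
    _ ≤ 2 * ((∏ i, (N i : ℝ)) * ((2 + 4 * (ρ / Λ)) / Real.sqrt (2 * (j : ℝ) + 1))) :=
        mul_le_mul_of_nonneg_left (step2.trans step4) (by norm_num)
    _ = _ := by ring

end Pool.Agent.Q137.NC
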