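import Mathlib

/-! # Sparse integer lattices of small index (random parity checks) -/

set_option autoImplicit false

open Finset
open scoped Pointwise

noncomputable section

namespace Pool.Agent.Q137.NC

/-- geometric sum over an interval of integers -/
lemma sum_geom_int (b : ℕ) (hb : 1 ≤ b) (M : ℕ) :
    ∑ k ∈ Finset.Icc (-(M : ℤ)) M, ((b : ℝ) / (b + 1)) ^ k.natAbs ≤ 2 * b + 1 := by
  set q : ℝ := (b : ℝ) / (b + 1) with hq
  have hb0 : (0 : ℝ) < b := by exact_mod_cast hb
  have q0 : 0 < q := by positivity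
  have q1 : q < 1 := by
    rw [hq, div_lt_one (by positivity)]
    linarith
  have hI : Finset.Icc (-(M : ℤ)) M ⊆ (Finset.range (M + 1)).image (fun k : ℕ => (k : ℤ)) ∪
      (Finset.range M).image (fun k : ℕ => -((k : ℤ) + 1)) := by
    intro k hk
    rw [Finset.mem_Icc] at hk
    rw [Finset.mem_union, Finset.mem_image, Finset.mem_image]
    rcases le_or_gt 0 k with h | h
    · left
      exact ⟨k.toNat, by rw [Finset.mem_range]; omega, by omega⟩
    · right
      exact ⟨(-k - 1).toNat, by rw [Finset.mem_range]; omega, by omega⟩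
  have h1 : ∀ N : ℕ, ∑ k ∈ Finset.range N, q ^ k ≤ b + 1 := by
    intro N
    have h2 : ∑ k ∈ Finset.range N, q ^ k = (1 - q ^ N) / (1 - q) := by
      rw [geom_sum_eq q1.ne]
      rw [← neg_div_neg_eq]
      congr 1 <;> ring
    have h3 : 1 - q = 1 / (b + 1) := by
      rw [hq]
      field_simp
      ring
    rw [h2, h3, div_div_eq_mul_div, div_one]
    have : (0 : ℝ) ≤ q ^ N := by positivity
    nlinarith
  calc ∑ k ∈ Finset.Icc (-(M : ℤ)) M, q ^ k.natAbs
      ≤ ∑ k ∈ (Finset.range (M + 1)).image (fun k : ℕ => (k : ℤ)) ∪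
        (Finset.range M).image (fun k : ℕ => -((k : ℤ) + 1)), q ^ k.natAbs :=
        Finset.sum_le_sum_of_subset_of_nonneg hI fun _ _ _ => by positivity
    _ ≤ ∑ k ∈ (Finset.range (M + 1)).image (fun k : ℕ => (k : ℤ)), q ^ k.natAbs +
        ∑ k ∈ (Finset.range M).image (fun k : ℕ => -((k : ℤ) + 1)), q ^ k.natAbs := by
        rw [← Finset.sum_union_inter]
        have : 0 ≤ ∑ k ∈ (Finset.range (M + 1)).image (fun k : ℕ => (k : ℤ)) ∩
          (Finset.range M).image (fun k : ℕ => -((k : ℤ) + 1)), q ^ k.natAbs :=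
          Finset.sum_nonneg fun _ _ => by positivity
        linarith
    _ = ∑ k ∈ Finset.range (M + 1), q ^ k + ∑ k ∈ Finset.range M, q ^ (k + 1) := by
        rw [Finset.sum_image (by intro a _ c _ h; simpa using h),
          Finset.sum_image (by intro a _ c _ h; simpa using h)]
        have e1 : ∀ k : ℕ, ((k : ℤ)).natAbs = k := fun k => by omega
        have e2 : ∀ k : ℕ, (-((k : ℤ) + 1)).natAbs = k + 1 := fun k => by omega
        simp only [e1, e2]
    _ ≤ (b + 1) + b := by
        have e : ∑ k ∈ Finset.range M, q ^ (k + 1) = q * ∑ k ∈ Finset.range M, q ^ k := by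
          rw [Finset.mul_sum]
          exact Finset.sum_congr rfl fun k _ => by ring
        have e2 : q * (b + 1) = b := by
          rw [hq]
          field_simp
        have := h1 (M + 1)
        have h4 : q * ∑ k ∈ Finset.range M, q ^ k ≤ q * (b + 1) :=
          mul_le_mul_of_nonneg_left (h1 M) q0.le
        rw [e]
        linarith
    _ = 2 * b + 1 := by ring

/-- number of integer vectors of small `ℓ¹` norm -/
lemma card_short (n b : ℕ) (hb : 1 ≤ b) :
    (((Fintype.piFinset fun _ : Fin n => Finset.Icc (-((b * n : ℕ) : ℤ)) ((b * n : ℕ) : ℤ)).filter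
      fun x => ∑ i, (x i).natAbs ≤ b * n).card : ℝ) ≤ (6 * b + 3) ^ n := by
  classical
  set q : ℝ := (b : ℝ) / (b + 1) with hq
  have hb0 : (0 : ℝ) < b := by exact_mod_cast hb
  have q0 : 0 < q := by positivity
  have q1 : q < 1 := by
    rw [hq, div_lt_one (by positivity)]
    linarith
  set B := Fintype.piFinset fun _ : Fin n => Finset.Icc (-((b * n : ℕ) : ℤ)) ((b * n : ℕ) : ℤ)
    with hB
  have key : q ^ (b * n) * ((B.filter fun x => ∑ i, (x i).natAbs ≤ b * n).card : ℝ) ≤
      (2 * b + 1) ^ n := by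
    calc q ^ (b * n) * ((B.filter fun x => ∑ i, (x i).natAbs ≤ b * n).card : ℝ)
        = ∑ x ∈ B.filter fun x => ∑ i, (x i).natAbs ≤ b * n, q ^ (b * n) := by
          rw [Finset.sum_const, nsmul_eq_mul]
          ring
      _ ≤ ∑ x ∈ B.filter fun x => ∑ i, (x i).natAbs ≤ b * n, ∏ i, q ^ (x i).natAbs := by
          refine Finset.sum_le_sum fun x hx => ?_
          rw [Finset.prod_pow_eq_pow_sum]
          exact pow_le_pow_of_le_one q0.le q1.le (Finset.mem_filter.1 hx).2
      _ ≤ ∑ x ∈ B, ∏ i, q ^ (x i).natAbs :=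
          Finset.sum_le_sum_of_subset_of_nonneg (Finset.filter_subset _ _)
            fun _ _ _ => Finset.prod_nonneg fun _ _ => by positivity
      _ = ∏ _i : Fin n, ∑ k ∈ Finset.Icc (-((b * n : ℕ) : ℤ)) ((b * n : ℕ) : ℤ), q ^ k.natAbs := by
          rw [hB, Finset.prod_univ_sum]
      _ ≤ ∏ _i : Fin n, (2 * (b : ℝ) + 1) :=
          Finset.prod_le_prod (fun _ _ => Finset.sum_nonneg fun _ _ => by positivity)
            fun _ _ => sum_geom_int b hb _
      _ = (2 * b + 1) ^ n := by simp
  have hqb : (1 : ℝ) / 3 ≤ q ^ b := by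
    have h1 : (1 + 1 / (b : ℝ)) ^ b ≤ 3 := by
      have h2 : 1 + 1 / (b : ℝ) ≤ Real.exp (1 / b) := by
        have := Real.add_one_le_exp (1 / (b : ℝ))
        linarith
      calc (1 + 1 / (b : ℝ)) ^ b ≤ (Real.exp (1 / b)) ^ b :=
            pow_le_pow_left₀ (by positivity) h2 _
        _ = Real.exp 1 := by
            rw [← Real.exp_nat_mul]
            congr 1
            field_simp
        _ ≤ 3 := Real.exp_one_lt_three.le
    have h3 : q = (1 + 1 / (b : ℝ))⁻¹ := by
      rw [hq]
      field_simp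
    rw [h3, inv_pow, one_div]
    exact inv_anti₀ (by positivity) h1
  have hqn : (1 / 3 : ℝ) ^ n ≤ q ^ (b * n) := by
    rw [pow_mul]
    exact pow_le_pow_left₀ (by norm_num) hqb _
  have hc : (0 : ℝ) ≤ ((B.filter fun x => ∑ i, (x i).natAbs ≤ b * n).card : ℝ) := by positivity
  have h5 : (1 / 3 : ℝ) ^ n * ((B.filter fun x => ∑ i, (x i).natAbs ≤ b * n).card : ℝ) ≤
      (2 * b + 1) ^ n := (mul_le_mul_of_nonneg_right hqn hc).trans key
  have h6 : (6 * (b : ℝ) + 3) ^ n = 3 ^ n * (2 * b + 1) ^ n := by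
    rw [← mul_pow]
    congr 1
    ring
  rw [h6]
  calc ((B.filter fun x => ∑ i, (x i).natAbs ≤ b * n).card : ℝ)
      = 3 ^ n * ((1 / 3 : ℝ) ^ n *
        ((B.filter fun x => ∑ i, (x i).natAbs ≤ b * n).card : ℝ)) := by
        rw [← mul_assoc, ← mul_pow]
        norm_num
    _ ≤ _ := mul_le_mul_of_nonneg_left h5 (by positivity)

/-- parity checks: for a nonzero vector modulo `p`, exactly the fraction `p ^ (-m)` of all matrices
kills it -/
lemma card_kill (p m n : ℕ) [Fact p.Prime] (x : Fin n → ZMod p) (hx : x ≠ 0) :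
    ((Finset.univ.filter fun H : Fin m → Fin n → ZMod p =>
      ∀ i, ∑ j, H i j * x j = 0).card) * p ^ m = p ^ (m * n) := by
  classical
  let f : (Fin m → Fin n → ZMod p) →+ (Fin m → ZMod p) :=
    { toFun := fun H i => ∑ j, H i j * x j
      map_zero' := by
        funext i
        simp
      map_add' := by
        intro H H'
        funext i
        simp [add_mul, Finset.sum_add_distrib] }
  have hsurj : Function.Surjective f := by
    intro y
    obtain ⟨j₀, hj⟩ : ∃ j, x j ≠ 0 := by
      by_contra hcon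
      push Not at hcon
      exact hx (funext hcon)
    refine ⟨fun i j => if j = j₀ then y i * (x j₀)⁻¹ else 0, ?_⟩
    funext i
    show ∑ j, (if j = j₀ then y i * (x j₀)⁻¹ else 0) * x j = y i
    rw [Finset.sum_eq_single j₀]
    · rw [if_pos rfl, mul_assoc, inv_mul_cancel₀ hj, mul_one]
    · intro b _ hb
      rw [if_neg hb, zero_mul]
    · intro h
      exact absurd (Finset.mem_univ _) h
  have h1 := AddSubgroup.card_mul_index f.ker
  rw [AddSubgroup.index_ker, AddMonoidHom.range_eq_top.2 hsurj] at h1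
  have h2 : Nat.card (⊤ : AddSubgroup (Fin m → ZMod p)) = p ^ m := by
    rw [AddSubgroup.card_top]
    simp [Nat.card_eq_fintype_card, ZMod.card]
  have h3 : Nat.card (Fin m → Fin n → ZMod p) = p ^ (m * n) := by
    rw [Nat.card_eq_fintype_card]
    simp [ZMod.card, ← pow_mul, mul_comm]
  have h4 : Nat.card f.ker = (Finset.univ.filter fun H : Fin m → Fin n → ZMod p =>
      ∀ i, ∑ j, H i j * x j = 0).card := by
    rw [Nat.card_eq_fintype_card, Fintype.card_subtype]
    congr 1
    ext H
    simp only [Finset.mem_filter, Finset.mem_univ, true_and]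
    rw [AddMonoidHom.mem_ker]
    constructor
    · intro h i
      exact congrFun h i
    · intro h
      funext i
      exact h i
  rw [h2, h3, h4] at h1
  exact h1

/-- a parity check matrix without short vectors in its kernel -/
lemma exists_check (p m n b : ℕ) [Fact p.Prime] (hb : 1 ≤ b) (hp : b * n < p)
    (hc : (6 * b + 3) ^ n ≤ p ^ m) :
    ∃ H : Fin m → Fin n → ZMod p, ∀ x : Fin n → ℤ, x ≠ 0 →
      (∀ i, ∑ j, H i j * ((x j : ℤ) : ZMod p) = 0) → b * n < ∑ i, (x i).natAbs := by
  classical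
  set S := ((Fintype.piFinset fun _ : Fin n => Finset.Icc (-((b * n : ℕ) : ℤ)) ((b * n : ℕ) : ℤ)).filter
      fun x => ∑ i, (x i).natAbs ≤ b * n) with hS
  have hcard : S.card ≤ (6 * b + 3) ^ n := by
    have := card_short n b hb
    exact_mod_cast this
  have h0 : (0 : Fin n → ℤ) ∈ S := by
    rw [hS, Finset.mem_filter, Fintype.mem_piFinset]
    refine ⟨fun i => ?_, by simp⟩
    rw [Finset.mem_Icc]
    have : (0 : ℤ) ≤ ((b * n : ℕ) : ℤ) := by positivity
    exact ⟨by simpa using this, this⟩
  have hlt : (S.erase 0).card < p ^ m := by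
    rw [Finset.card_erase_of_mem h0]
    have : 0 < S.card := Finset.card_pos.2 ⟨0, h0⟩
    omega
  by_contra hcon
  push Not at hcon
  have hp0 : 0 < p := (Fact.out : p.Prime).pos
  -- every matrix kills some short vector
  have hcov : (Finset.univ : Finset (Fin m → Fin n → ZMod p)) ⊆
      (S.erase 0).biUnion fun x => Finset.univ.filter fun H : Fin m → Fin n → ZMod p =>
        ∀ i, ∑ j, H i j * ((x j : ℤ) : ZMod p) = 0 := by
    intro H _
    obtain ⟨x, hx0, hxk, hxs⟩ := hcon H
    rw [Finset.mem_biUnion]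
    refine ⟨x, ?_, by simpa using hxk⟩
    rw [Finset.mem_erase, hS, Finset.mem_filter, Fintype.mem_piFinset]
    refine ⟨hx0, fun i => ?_, hxs⟩
    have : (x i).natAbs ≤ ∑ i, (x i).natAbs :=
      Finset.single_le_sum (f := fun i => (x i).natAbs) (fun _ _ => Nat.zero_le _)
        (Finset.mem_univ i)
    rw [Finset.mem_Icc]
    have h2 : (x i).natAbs ≤ b * n := this.trans hxs
    have h3 : ((x i).natAbs : ℤ) ≤ ((b * n : ℕ) : ℤ) := by exact_mod_cast h2
    omega
  have hb1 := (Finset.card_le_card hcov).trans Finset.card_biUnion_le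
  have hkill : ∀ x ∈ S.erase 0, ((Finset.univ.filter fun H : Fin m → Fin n → ZMod p =>
        ∀ i, ∑ j, H i j * ((x j : ℤ) : ZMod p) = 0).card) * p ^ m = p ^ (m * n) := by
    intro x hx
    refine card_kill p m n (fun j => ((x j : ℤ) : ZMod p)) ?_
    intro h
    rw [Finset.mem_erase, hS, Finset.mem_filter] at hx
    apply hx.1
    funext j
    have h1 : ((x j : ℤ) : ZMod p) = 0 := congrFun h j
    rw [ZMod.intCast_zmod_eq_zero_iff_dvd] at h1
    have : (x j).natAbs ≤ ∑ i, (x i).natAbs :=
      Finset.single_le_sum (f := fun i => (x i).natAbs) (fun _ _ => Nat.zero_le _)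
        (Finset.mem_univ j)
    have h2 : (x j).natAbs < p := lt_of_le_of_lt (this.trans hx.2.2) hp
    have h3 : p ∣ (x j).natAbs := Int.natCast_dvd.1 h1
    have h4 : (x j).natAbs = 0 := Nat.eq_zero_of_dvd_of_lt h3 h2
    show x j = 0
    exact Int.natAbs_eq_zero.1 h4
  have h5 : (Finset.univ : Finset (Fin m → Fin n → ZMod p)).card = p ^ (m * n) := by
    rw [Finset.card_univ]
    simp [ZMod.card, ← pow_mul, mul_comm]
  have h6 : p ^ (m * n) * p ^ m ≤ (S.erase 0).card * p ^ (m * n) := by
    calc p ^ (m * n) * p ^ m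
        ≤ (∑ x ∈ S.erase 0, (Finset.univ.filter fun H : Fin m → Fin n → ZMod p =>
            ∀ i, ∑ j, H i j * ((x j : ℤ) : ZMod p) = 0).card) * p ^ m := by
          rw [h5] at hb1
          exact Nat.mul_le_mul_right _ hb1
      _ = ∑ x ∈ S.erase 0, p ^ (m * n) := by
          rw [Finset.sum_mul]
          exact Finset.sum_congr rfl hkill
      _ = _ := by rw [Finset.sum_const, smul_eq_mul]
  have h7 : 0 < p ^ (m * n) := pow_pos hp0 _
  have h8 : p ^ m ≤ (S.erase 0).card := by
    have : p ^ m * p ^ (m * n) ≤ (S.erase 0).card * p ^ (m * n) := by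
      rw [mul_comm (p ^ m)]
      exact h6
    exact Nat.le_of_mul_le_mul_right this h7
  omega

end Pool.Agent.Q137.NC
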