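import Pool.Agent.Q137.NC.Core

/-! # The final form -/

set_option autoImplicit false

open Finset
open scoped Pointwise

noncomputable section

namespace Pool.Agent.Q137.NC

lemma mem_prog {G : Type*} [AddCommGroup G] {d : ℕ} (a : G) (v : Fin d → G) (N : Fin d → ℕ)
    (z : G) : z ∈ prog a v N ↔ ∃ k : Fin d → ℕ, (∀ i, k i < N i) ∧ z = a + ∑ i, k i • v i := by
  classical
  rw [prog, Finset.mem_image]
  constructor
  · rintro ⟨k, hk, rfl⟩
    rw [pbox, Fintype.mem_piFinset] at hk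
    exact ⟨k, fun i => Finset.mem_range.1 (hk i), rfl⟩
  · rintro ⟨k, hk, rfl⟩
    exact ⟨k, by rw [pbox, Fintype.mem_piFinset]; exact fun i => Finset.mem_range.2 (hk i), rfl⟩

/-- the numerical requirements -/
lemma eventually_small (τ ε : ℝ) (h0 : 0 < τ) (h1 : τ < 1 / 2) (hε : 0 < ε) :
    ∃ X₀ : ℝ, ∀ X : ℝ, X₀ ≤ X → 43815 * (2 * X ^ τ) ^ 2 * Real.log (37 * (2 * X ^ τ)) ≤ ε * X := by
  set s : ℝ := 1 - 2 * τ with hs
  have hs0 : 0 < s := by linarith
  set gap : ℝ := s * (1 - τ) with hgap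
  have hgap0 : 0 < gap := mul_pos hs0 (by linarith)
  set c : ℝ := 43815 * 4 * 74 ^ s / s / ε with hc
  obtain ⟨X₁, hX₁⟩ := Filter.eventually_atTop.1
    ((tendsto_rpow_atTop hgap0).eventually_ge_atTop c)
  refine ⟨max X₁ 1, fun X hX => ?_⟩
  have hX1 : X₁ ≤ X := (le_max_left _ _).trans hX
  have hX2 : 1 ≤ X := (le_max_right _ _).trans hX
  have hXp : 0 < X := by linarith
  have h2 := hX₁ X hX1
  have h3 : Real.log (37 * (2 * X ^ τ)) ≤ 74 ^ s * X ^ (τ * s) / s := by
    have h4 := Real.log_le_rpow_div (x := 37 * (2 * X ^ τ)) (by positivity) hs0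
    refine h4.trans (le_of_eq ?_)
    congr 1
    rw [← mul_assoc, Real.mul_rpow (by norm_num) (by positivity), ← Real.rpow_mul hXp.le]
    norm_num
  have h5 : (2 * X ^ τ) ^ 2 = 4 * X ^ (2 * τ) := by
    rw [mul_pow, ← Real.rpow_natCast (X ^ τ) 2, ← Real.rpow_mul hXp.le]
    norm_num
    rw [mul_comm τ 2]
  rw [h5]
  calc 43815 * (4 * X ^ (2 * τ)) * Real.log (37 * (2 * X ^ τ))
      ≤ 43815 * (4 * X ^ (2 * τ)) * (74 ^ s * X ^ (τ * s) / s) :=
        mul_le_mul_of_nonneg_left h3 (by positivity)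
    _ = (c * ε) * (X ^ (2 * τ) * X ^ (τ * s)) := by
        rw [hc]
        field_simp
    _ ≤ (X ^ gap * ε) * (X ^ (2 * τ) * X ^ (τ * s)) :=
        mul_le_mul_of_nonneg_right (mul_le_mul_of_nonneg_right h2 hε.le) (by positivity)
    _ = ε * (X ^ gap * (X ^ (2 * τ) * X ^ (τ * s))) := by ring
    _ = ε * X := by
        rw [← Real.rpow_add hXp, ← Real.rpow_add hXp]
        have : gap + (2 * τ + τ * s) = 1 := by
          rw [hgap, hs]
          ring
        rw [this, Real.rpow_one]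

lemma log16 : 2 < Real.log 16 ∧ Real.log 16 < 3 := by
  have h2 := Real.log_two_gt_d9
  have h3 := Real.log_two_lt_d9
  have e : Real.log 16 = 4 * Real.log 2 := by
    rw [show (16 : ℝ) = 2 ^ 4 by norm_num, Real.log_pow]
    norm_num
  constructor <;> rw [e] <;> linarith

open Classical in
theorem main (β : ℝ) (hβ0 : 0 ≤ β) (hβ : β < 1 / 2) :
    ∃ c : ℝ, 0 < c ∧ ∀ ε : ℝ, 0 < ε → ∃ K₀ : ℝ, ∀ K : ℝ, K₀ ≤ K →
      ∃ (n : ℕ) (L : AddSubgroup (Fin n → ℤ)) (A : Finset L),
        A.Nonempty ∧ ((A + A).card : ℝ) ≤ K * A.card ∧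
        K ^ (c * Real.log (Real.log K)) ≤ (A.card : ℝ) ∧
        ∀ (d : ℕ) (a : L) (v : Fin d → L) (N : Fin d → ℕ) (x : L) (l : ℕ) (δ : ℝ),
          1 ≤ l → 0 < δ → (l : ℝ) ≤ δ * (Real.log K) ^ β → (∀ i, 1 ≤ N i) →
          δ * ∏ i, (N i : ℝ) ≤ ((hits A l x a v N).card : ℝ) →
          ((prog a v N).card : ℝ) ≤ K ^ ε := by
  set η : ℝ := (1 / 2 - β) / 2 with hη
  have hη0 : 0 < η := by rw [hη]; linarith
  refine ⟨η / 4, by positivity, fun ε hε => ?_⟩
  obtain ⟨X₁, hX₁⟩ := eventually_small (β + η) ε (by linarith) (by rw [hη]; linarith) hε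
  refine ⟨Real.exp (max X₁ 20), fun K hK => ?_⟩
  have hKp : 0 < K := lt_of_lt_of_le (Real.exp_pos _) hK
  set X := Real.log K with hX
  have hXm : max X₁ 20 ≤ X := by
    rw [hX, Real.le_log_iff_exp_le hKp]
    exact hK
  have hX1 : X₁ ≤ X := (le_max_left _ _).trans hXm
  have hX2 : 20 ≤ X := (le_max_right _ _).trans hXm
  obtain ⟨hl1, hl2⟩ := log16
  set m := ⌊X / Real.log 16⌋₊ with hm
  have hm1 : (m : ℝ) ≤ X / Real.log 16 := Nat.floor_le (by positivity)
  have hm2 : X / Real.log 16 < m + 1 := Nat.lt_floor_add_one _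
  have hm3 : X / 3 < m + 1 := by
    refine lt_of_le_of_lt ?_ hm2
    exact div_le_div_of_nonneg_left (by linarith) (by linarith) hl2.le
  have hm4 : X / 4 ≤ m := by linarith
  have hm5 : 5 ≤ m := by
    have : (5 : ℝ) ≤ m := by linarith
    exact_mod_cast this
  have hm6 : (m : ℝ) ≤ X := by
    refine hm1.trans ?_
    exact div_le_self (by linarith) (by linarith)
  have hmp : (0 : ℝ) < m := by linarith
  set r := ⌈(m : ℝ) ^ η⌉₊ with hr
  have hr1 : (m : ℝ) ^ η ≤ r := Nat.le_ceil _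
  have hr2 : (r : ℝ) < (m : ℝ) ^ η + 1 := Nat.ceil_lt_add_one (by positivity)
  have hmη : (1 : ℝ) ≤ (m : ℝ) ^ η := Real.one_le_rpow (by linarith) hη0.le
  have hr3 : 1 ≤ r := by
    have : (1 : ℝ) ≤ r := hmη.trans hr1
    exact_mod_cast this
  have hr4 : (r : ℝ) ≤ 2 * X ^ η := by
    have : (m : ℝ) ^ η ≤ X ^ η := Real.rpow_le_rpow hmp.le hm6 hη0.le
    linarith
  obtain ⟨L, hL1, hL2⟩ := exists_sets m r hm5
  refine ⟨2 * m, L, cubeA L (9 * (2 * m) * r), ⟨0, ?_⟩, ?_, ?_, ?_⟩
  · rw [mem_cubeA]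
    intro i
    constructor
    · simp
      positivity
    · simp
      positivity
  · have h1 := cubeA_doubling L (9 * (2 * m) * r)
    have h2 : (((cubeA L (9 * (2 * m) * r) + cubeA L (9 * (2 * m) * r)).card : ℕ) : ℝ) ≤
        4 ^ (2 * m) * (cubeA L (9 * (2 * m) * r)).card := by exact_mod_cast h1
    refine h2.trans (mul_le_mul_of_nonneg_right ?_ (by positivity))
    have h3 : (4 : ℝ) ^ (2 * m) = 16 ^ m := by
      rw [pow_mul]
      norm_num
    rw [h3, ← Real.exp_log (by positivity : (0 : ℝ) < 16 ^ m), ← Real.exp_log hKp, Real.log_pow]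
    refine Real.exp_le_exp.2 ?_
    rw [← hX, ← le_div_iff₀ (by linarith)]
    exact hm1
  · have h1 : ((r ^ (2 * m) : ℕ) : ℝ) ≤ (cubeA L (9 * (2 * m) * r)).card := by exact_mod_cast hL1
    refine le_trans ?_ h1
    push_cast
    have hrp : (0 : ℝ) < r := by exact_mod_cast hr3
    rw [Real.rpow_def_of_pos hKp, ← Real.exp_log (pow_pos hrp (2 * m)), Real.log_pow]
    refine Real.exp_le_exp.2 ?_
    rw [← hX]
    have h2 : η * Real.log m ≤ Real.log r := by
      rw [← Real.log_rpow hmp]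
      exact Real.log_le_log (by positivity) hr1
    have h3 : Real.log X / 2 ≤ Real.log m := by
      have h4 : Real.log (X / 4) ≤ Real.log m := Real.log_le_log (by linarith) hm4
      have h5 : Real.log X ≤ Real.log ((X / 4) ^ 2) := by
        refine Real.log_le_log (by linarith) ?_
        nlinarith
      rw [Real.log_pow] at h5
      push_cast at h5
      linarith
    have h6 : 0 ≤ Real.log X := Real.log_nonneg (by linarith)
    push_cast
    calc X * (η / 4 * Real.log X) = 2 * (X / 4) * (η * (Real.log X / 2)) := by ring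
      _ ≤ 2 * m * (η * Real.log m) := by
          refine mul_le_mul (by linarith) (mul_le_mul_of_nonneg_left h3 hη0.le) (by positivity)
            (by positivity)
      _ ≤ 2 * m * Real.log r := mul_le_mul_of_nonneg_left h2 (by positivity)
  · intro d a v N x l δ hl hδ hlδ hN hT
    have hNp : 0 < ∏ i, (N i : ℝ) := Finset.prod_pos fun i _ => by
      have := hN i
      positivity
    have hδ1 : δ ≤ 1 := by
      have h1 : (hits (cubeA L (9 * (2 * m) * r)) l x a v N).card ≤ ∏ i, N i := by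
        refine (Finset.card_filter_le _ _).trans (le_of_eq ?_)
        rw [pbox, Fintype.card_piFinset]
        simp
      have h2 : ((hits (cubeA L (9 * (2 * m) * r)) l x a v N).card : ℝ) ≤ ∏ i, (N i : ℝ) := by
        exact_mod_cast h1
      have h3 : δ * ∏ i, (N i : ℝ) ≤ 1 * ∏ i, (N i : ℝ) := by
        rw [one_mul]
        exact hT.trans h2
      exact le_of_mul_le_mul_right h3 hNp
    have h1 := size_bound L r l x a v N (by omega) hr3 hl hL2 δ hδ hδ1 hNp hT
    refine h1.trans ?_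
    rw [Real.rpow_def_of_pos hKp]
    refine Real.exp_le_exp.2 ?_
    rw [← hX]
    have hl' : (1 : ℝ) ≤ l := by exact_mod_cast hl
    have hr' : (1 : ℝ) ≤ r := by exact_mod_cast hr3
    have hq0 : 1 ≤ l * r / δ := by
      rw [le_div_iff₀ hδ]
      nlinarith
    have hq : l * r / δ ≤ 2 * X ^ (β + η) := by
      rw [div_le_iff₀ hδ, Real.rpow_add (by linarith)]
      calc (l : ℝ) * r ≤ (δ * X ^ β) * (2 * X ^ η) :=
            mul_le_mul hlδ hr4 (by positivity) (by positivity)
        _ = _ := by ring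
    have h2 := hX₁ X hX1
    calc 43815 * (l * r / δ) ^ 2 * Real.log (37 * (l * r / δ))
        ≤ 43815 * (2 * X ^ (β + η)) ^ 2 * Real.log (37 * (2 * X ^ (β + η))) := by
          refine mul_le_mul ?_ ?_ (Real.log_nonneg (by linarith)) (by positivity)
          · exact mul_le_mul_of_nonneg_left (pow_le_pow_left₀ (by linarith) hq 2) (by norm_num)
          · exact Real.log_le_log (by linarith) (by linarith)
      _ ≤ ε * X := h2
      _ = X * ε := mul_comm _ _

end Pool.Agent.Q137.NC
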