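import Pool.Agent.Q137.NC.Gauss

/-! # Dirichlet kernels and cosine powers -/

set_option autoImplicit false

open MeasureTheory ProbabilityTheory Finset

noncomputable section

namespace Pool.Agent.Q137.NC

lemma continuous_lin (n : ℕ) (z : Fin n → ℝ) : Continuous fun g : Fin n → ℝ => ∑ a, g a * z a := by
  fun_prop

lemma integrable_cexp (n : ℕ) (z : Fin n → ℝ) (c : ℝ) :
    Integrable (fun g : Fin n → ℝ =>
      Complex.exp (((c * ∑ a, g a * z a : ℝ) : ℂ) * Complex.I)) (gam n) := by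
  refine Integrable.of_bound (C := 1) ?_ (Filter.Eventually.of_forall fun g => ?_)
  · refine Continuous.aestronglyMeasurable ?_
    have := continuous_lin n z
    fun_prop
  · rw [Complex.norm_exp_ofReal_mul_I]

lemma gam_cos (n : ℕ) (z : Fin n → ℝ) (k : ℝ) (hk : 0 < k) (hz : k ^ 2 ≤ ∑ a, z a ^ 2) (j : ℕ) :
    ∫ g, Real.cos ((∑ a, g a * z a) / 2) ^ (2 * j) ∂(gam n) ≤
      (1 + 4 / k) / Real.sqrt (2 * j + 1) := by
  have hid : ∀ g : Fin n → ℝ, ((Real.cos ((∑ a, g a * z a) / 2) ^ (2 * j) : ℝ) : ℂ) =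
      ∑ l ∈ Finset.range (2 * j + 1), ((((2 * j).choose l : ℝ) / 4 ^ j : ℝ) : ℂ) *
        Complex.exp (((((l : ℝ) - j) * ∑ a, g a * z a : ℝ) : ℂ) * Complex.I) := by
    intro g
    set θ := ∑ a, g a * z a with hθ
    have h1 : ((Real.cos (θ / 2) ^ (2 * j) : ℝ) : ℂ) =
        (Complex.exp (((θ / 2 : ℝ) : ℂ) * Complex.I) +
          Complex.exp (-((θ / 2 : ℝ) : ℂ) * Complex.I)) ^ (2 * j) / 4 ^ j := by
      push_cast
      rw [Complex.cos, div_pow]
      congr 1
      rw [pow_mul]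
      norm_num
    rw [h1, add_pow, Finset.sum_div]
    refine Finset.sum_congr rfl fun l hl => ?_
    have hl' : l ≤ 2 * j := by
      have := Finset.mem_range.1 hl
      omega
    rw [← Complex.exp_nat_mul, ← Complex.exp_nat_mul, ← Complex.exp_add]
    have e : (l : ℂ) * (((θ / 2 : ℝ) : ℂ) * Complex.I) +
        ((2 * j - l : ℕ) : ℂ) * (-((θ / 2 : ℝ) : ℂ) * Complex.I) =
        (((((l : ℝ) - j) * θ : ℝ) : ℂ) * Complex.I) := by
      rw [Nat.cast_sub hl']
      push_cast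
      ring
    rw [e]
    push_cast
    ring
  have hint : ∫ g, Real.cos ((∑ a, g a * z a) / 2) ^ (2 * j) ∂(gam n) =
      ∑ l ∈ Finset.range (2 * j + 1), ((2 * j).choose l : ℝ) / 4 ^ j *
        Real.exp (-(((l : ℝ) - j) ^ 2 * ∑ a, z a ^ 2) / 2) := by
    have h2 : ((∫ g, Real.cos ((∑ a, g a * z a) / 2) ^ (2 * j) ∂(gam n) : ℝ) : ℂ) =
        ((∑ l ∈ Finset.range (2 * j + 1), ((2 * j).choose l : ℝ) / 4 ^ j *
        Real.exp (-(((l : ℝ) - j) ^ 2 * ∑ a, z a ^ 2) / 2) : ℝ) : ℂ) := by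
      rw [← integral_complex_ofReal]
      simp only [hid]
      have hI : ∀ l ∈ Finset.range (2 * j + 1), Integrable (fun g : Fin n → ℝ =>
          ((((2 * j).choose l : ℝ) / 4 ^ j : ℝ) : ℂ) *
          Complex.exp (((((l : ℝ) - j) * ∑ a, g a * z a : ℝ) : ℂ) * Complex.I)) (gam n) :=
        fun l _ => (integrable_cexp n z ((l : ℝ) - j)).const_mul _
      rw [integral_finsetSum _ hI]
      rw [Complex.ofReal_sum]
      refine Finset.sum_congr rfl fun l _ => ?_
      rw [integral_const_mul]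
      have h3 := gam_char n (fun a => ((l : ℝ) - j) * z a)
      have h4 : ∀ g : Fin n → ℝ, ∑ a, g a * (((l : ℝ) - j) * z a) =
          ((l : ℝ) - j) * ∑ a, g a * z a := by
        intro g
        rw [Finset.mul_sum]
        exact Finset.sum_congr rfl fun a _ => by ring
      have h5 : ∑ a, (((l : ℝ) - j) * z a) ^ 2 = ((l : ℝ) - j) ^ 2 * ∑ a, z a ^ 2 := by
        rw [Finset.mul_sum]
        exact Finset.sum_congr rfl fun a _ => by ring
      simp only [h4, h5] at h3
      rw [h3, Complex.ofReal_mul]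
    exact_mod_cast h2
  rw [hint]
  have hs : 0 < Real.sqrt (2 * j + 1) := Real.sqrt_pos.2 (by positivity)
  calc ∑ l ∈ Finset.range (2 * j + 1), ((2 * j).choose l : ℝ) / 4 ^ j *
        Real.exp (-(((l : ℝ) - j) ^ 2 * ∑ a, z a ^ 2) / 2)
      ≤ ∑ l ∈ Finset.range (2 * j + 1), (1 / Real.sqrt (2 * j + 1)) *
        Real.exp (-(((l : ℝ) - j) * k) ^ 2 / 2) := by
        refine Finset.sum_le_sum fun l _ => ?_
        refine mul_le_mul ?_ (Real.exp_le_exp.2 ?_) (Real.exp_pos _).le (by positivity)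
        · refine le_trans ?_ (centralBinom_le j)
          refine div_le_div_of_nonneg_right ?_ (by positivity)
          exact_mod_cast Nat.choose_le_centralBinom l j
        · have := mul_le_mul_of_nonneg_left hz (sq_nonneg ((l : ℝ) - j))
          rw [mul_pow]
          linarith
    _ = (1 / Real.sqrt (2 * j + 1)) * ∑ l ∈ Finset.range (2 * j + 1),
        Real.exp (-(((l : ℝ) - j) * k) ^ 2 / 2) := by rw [Finset.mul_sum]
    _ ≤ (1 / Real.sqrt (2 * j + 1)) * (1 + 4 / k) :=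
        mul_le_mul_of_nonneg_left (theta_sum j k hk) (by positivity)
    _ = _ := by ring

/-- The majorant of the normalised Dirichlet kernels. -/
def FF (θ : ℝ) : ℝ := Real.sqrt ((2 + Real.cos θ) / 3)

lemma FF_nonneg (θ : ℝ) : 0 ≤ FF θ := Real.sqrt_nonneg _

lemma FF_sq (θ : ℝ) : FF θ ^ 2 = (2 + Real.cos θ) / 3 := by
  unfold FF
  rw [Real.sq_sqrt]
  have := Real.neg_one_le_cos θ
  linarith

lemma FF_le_one (θ : ℝ) : FF θ ≤ 1 := by
  have h := FF_sq θ
  have h1 := Real.cos_le_one θ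
  have h2 := FF_nonneg θ
  nlinarith

lemma FF_pow (θ : ℝ) (j : ℕ) : FF θ ^ (4 * j) ≤ Real.cos (θ / 2) ^ (2 * j) + (1 / 4) ^ j := by
  have h0 : FF θ ^ 4 = ((2 + Real.cos θ) / 3) ^ 2 := by
    rw [← FF_sq]
    ring
  have hc : Real.cos (θ / 2) ^ 2 = (1 + Real.cos θ) / 2 := by
    have := Real.cos_sq (θ / 2)
    rw [this]
    have e : 2 * (θ / 2) = θ := by ring
    rw [e]
    ring
  have h1 := Real.neg_one_le_cos θ
  have h2 := Real.cos_le_one θ
  rw [pow_mul, pow_mul, h0, hc]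
  rcases le_or_gt (-1 / 2 : ℝ) (Real.cos θ) with h | h
  · have h3 : ((2 + Real.cos θ) / 3) ^ 2 ≤ (1 + Real.cos θ) / 2 := by nlinarith
    have h4 := pow_le_pow_left₀ (sq_nonneg _) h3 j
    have h5 : (0 : ℝ) ≤ (1 / 4) ^ j := by positivity
    linarith
  · have h3 : ((2 + Real.cos θ) / 3) ^ 2 ≤ 1 / 4 := by nlinarith
    have h4 := pow_le_pow_left₀ (sq_nonneg _) h3 j
    have h5 : (0 : ℝ) ≤ ((1 + Real.cos θ) / 2) ^ j := by
      have : 0 ≤ (1 + Real.cos θ) / 2 := by linarith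
      positivity
    linarith

lemma dirichlet_bound (θ : ℝ) (N : ℕ) :
    ‖∑ t ∈ Finset.range (N + 2), Complex.exp (((t * θ : ℝ) : ℂ) * Complex.I)‖ ≤
      ((N + 2 : ℕ) : ℝ) * FF θ := by
  have hexp : ∀ x : ℝ, Complex.exp ((x : ℂ) * Complex.I) = ⟨Real.cos x, Real.sin x⟩ := by
    intro x
    rw [Complex.exp_mul_I]
    apply Complex.ext <;> simp [Complex.cos_ofReal_re, Complex.sin_ofReal_re,
      Complex.cos_ofReal_im, Complex.sin_ofReal_im]
  have hcs := Real.sin_sq_add_cos_sq θ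
  have h1 := Real.neg_one_le_cos θ
  have h2 := Real.cos_le_one θ
  have key2 : ‖∑ t ∈ Finset.range 2, Complex.exp (((t * θ : ℝ) : ℂ) * Complex.I)‖ ≤ 2 * FF θ := by
    refine le_of_sq_le_sq ?_ (mul_nonneg (by norm_num) (FF_nonneg θ))
    rw [mul_pow, FF_sq, ← Complex.normSq_eq_norm_sq]
    rw [Finset.sum_range_succ, Finset.sum_range_one]
    rw [hexp, hexp, Complex.normSq_apply]
    simp only [Complex.add_re, Complex.add_im]
    simp only [Nat.cast_zero, zero_mul, Real.cos_zero, Real.sin_zero, Nat.cast_one, one_mul,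
      zero_add]
    nlinarith
  have key3 : ‖∑ t ∈ Finset.range 3, Complex.exp (((t * θ : ℝ) : ℂ) * Complex.I)‖ ≤ 3 * FF θ := by
    refine le_of_sq_le_sq ?_ (mul_nonneg (by norm_num) (FF_nonneg θ))
    rw [mul_pow, FF_sq, ← Complex.normSq_eq_norm_sq]
    rw [Finset.sum_range_succ, Finset.sum_range_succ, Finset.sum_range_one]
    rw [hexp, hexp, hexp, Complex.normSq_apply]
    simp only [Complex.add_re, Complex.add_im]
    simp only [Nat.cast_zero, zero_mul, Real.cos_zero, Real.sin_zero, Nat.cast_one, one_mul,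
      zero_add, Nat.cast_ofNat, Real.cos_two_mul, Real.sin_two_mul]
    set c := Real.cos θ
    set s := Real.sin θ
    have e : (1 + c + (2 * c ^ 2 - 1)) * (1 + c + (2 * c ^ 2 - 1)) +
        (s + 2 * s * c) * (s + 2 * s * c) = (1 + 2 * c) ^ 2 * (s ^ 2 + c ^ 2) := by ring
    rw [e, hcs]
    nlinarith
  induction N using Nat.twoStepInduction with
  | zero => simpa using key2
  | one => simpa using key3
  | more N ih _ =>
    rw [show N + 1 + 1 + 2 = (N + 2) + 2 by ring, Finset.sum_range_add]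
    have e : ∑ x ∈ Finset.range 2,
        Complex.exp ((((N + 2 + x : ℕ) * θ : ℝ) : ℂ) * Complex.I) =
        Complex.exp ((((N + 2 : ℕ) * θ : ℝ) : ℂ) * Complex.I) *
        ∑ x ∈ Finset.range 2, Complex.exp (((x * θ : ℝ) : ℂ) * Complex.I) := by
      rw [Finset.mul_sum]
      refine Finset.sum_congr rfl fun x _ => ?_
      rw [← Complex.exp_add]
      congr 1
      push_cast
      ring
    rw [e]
    refine (norm_add_le _ _).trans ?_
    rw [norm_mul, Complex.norm_exp_ofReal_mul_I, one_mul]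
    push_cast at ih key2 ⊢
    linarith

lemma dirichlet_bound' (θ : ℝ) (N : ℕ) :
    ‖∑ t ∈ Finset.range N, Complex.exp (((t * θ : ℝ) : ℂ) * Complex.I)‖ ≤ N := by
  refine (norm_sum_le _ _).trans ?_
  simp only [Complex.norm_exp_ofReal_mul_I]
  simp

end Pool.Agent.Q137.NC
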